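import Pool.Agent.J6H43.SE.Line

/-!
The `L`-functions of the superelliptic curves `y ^ N = ∏ (x - a i) ^ e i` over function fields, modulo
a prime `l`, for the powers `N` of `l`.
-/

set_option autoImplicit false
set_option linter.all false
set_option maxHeartbeats 4000000

open PowerSeries FF Module

namespace Pool.Agent.J6H43.SE

open Pool.Agent.W343.BSD Pool.Agent.H123R3.ZT Pool.Agent.W313.Hyp

section defs

variable {k K : Type} [Field k] [Field K] [Algebra k K]

/-- The reductions at the place `v` of the elements `(a i - r) / u ^ N`, where `u = u v` and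
`r = r v`: the branch points of the model obtained from `y ^ N = ∏ (x - a i) ^ e i` by the
substitution of `u ^ N x + r` for `x`. -/
noncomputable def redPts (N : ℕ) {n : ℕ} (a : Fin n → K) (u r : FF.Place k K → K)
    (v : FF.Place k K) : Fin n → S.Res v := fun i => S.red v ((a i - r v) / u v ^ N)

/-- The product over the places `v` outside `A` and the closed points `Q` of the affine line over
the residue field of `v` of the factors of `Q` for the curve `y ^ N = ∏ (x - b i) ^ e i`, where the
`b i` are the `redPts` at `v`, with `χ v T ^ deg v` instead of `T ^ deg v`. -/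
noncomputable def LOutside (N : ℕ) (A : Finset (FF.Place k K)) {n : ℕ} (a : Fin n → K)
    (e : Fin n → ℕ) (u r : FF.Place k K → K) (χ : FF.Place k K → ℤ) : PowerSeries ℤ :=
  eulerProd (fun z : PtOutside A => z.deg)
    (fun z => pointFactor N (splitPoly (redPts N a u r z.place) e)
      (χ z.place ^ ptDegree z.pt) z.deg z.pt)

/-- The number of branch points which are lost in the reduction at `v`: all but one for `v` in `A`,
otherwise the number `n` of the branch points minus the number of their reductions. -/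
noncomputable def drop (N : ℕ) (A : Finset (FF.Place k K)) {n : ℕ} (a : Fin n → K)
    (u r : FF.Place k K → K) (v : FF.Place k K) [Decidable (v ∈ A)] : ℕ :=
  if v ∈ A then n - 1 else n - numPts (redPts N a u r v)

end defs

section glob

variable {k K : Type} [Field k] [Finite k] [Field K] [Algebra k K] [FF.IsFF k K]

theorem LOutside_eq {N : ℕ} (hN : 0 < N) (A : Finset (FF.Place k K)) {n : ℕ} (a : Fin n → K)
    (e : Fin n → ℕ) (u r : FF.Place k K → K) (χ : FF.Place k K → ℤ)
    [DecidablePred fun v : Place k K => v ∉ A] :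
    LOutside N A a e u r χ = eulerProd (fun v : Place k K => v.deg)
      (fun v => if v ∉ A then lineE (F := v.RF) N (splitPoly (redPts N a u r v) e) (χ v) v.deg
        else 1) := by
  have hfv : ∀ v : Place k K, Finite v.RF := Pool.Agent.W313.Hyp.finite_RF
  have h1 := eulerProd_equiv (R := ℤ) (ptEquiv A) (fun y => y.1.1.deg * y.2.1.natDegree)
    (pts_finite A) (fun y => pointFactor (F := y.1.1.RF) N
      (splitPoly (redPts N a u r y.1.1) e) (χ y.1.1 ^ y.2.1.natDegree)
        (y.1.1.deg * y.2.1.natDegree) y.2)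
  have e1 : (fun z : PtOutside A => z.deg) = fun z => (ptEquiv A z).1.1.deg *
      (ptEquiv A z).2.1.natDegree := by
    funext z
    show S.deg z.place * z.pt.1.natDegree = _
    rw [S.deg_eq]
    rfl
  have e2 : (fun z : PtOutside A => pointFactor N (splitPoly (redPts N a u r z.place) e)
      (χ z.place ^ ptDegree z.pt) z.deg z.pt) = fun z => pointFactor (F := (ptEquiv A z).1.1.RF) N
      (splitPoly (redPts N a u r (ptEquiv A z).1.1) e)
        (χ (ptEquiv A z).1.1 ^ (ptEquiv A z).2.1.natDegree)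
        ((ptEquiv A z).1.1.deg * (ptEquiv A z).2.1.natDegree) (ptEquiv A z).2 := by
    funext z
    have h2 : z.deg = (ptEquiv A z).1.1.deg * (ptEquiv A z).2.1.natDegree := congrFun e1 z
    rw [← h2]
    rfl
  have h2 : LOutside N A a e u r χ =
      eulerProd (fun z : (Σ v : {v : Place k K // v ∉ A}, MI v.1.RF) =>
        z.1.1.deg * z.2.1.natDegree) (fun y => pointFactor (F := y.1.1.RF) N
      (splitPoly (redPts N a u r y.1.1) e) (χ y.1.1 ^ y.2.1.natDegree)
        (y.1.1.deg * y.2.1.natDegree) y.2) := by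
    refine Eq.trans ?_ h1
    unfold LOutside
    rw [e1, e2]
  rw [h2]
  rw [eulerProd_sigma (ι := {v : Place k K // v ∉ A}) (κ := fun v => MI v.1.RF)
    (d := fun v => v.1.deg) (e := fun v P => P.1.natDegree)
    (fun n => Set.Finite.of_finite_image (f := fun i : {v : Place k K // v ∉ A} => i.1)
      ((places_fin n).subset (by rintro _ ⟨i, hi, rfl⟩; exact hi))
      (Set.injOn_of_injective Subtype.val_injective))
    (fun v => deg_pos' v.1) (fun v n => finite_deg_le n) (fun v P => MI.deg_pos P) _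
    (fun p => pointFactor_dvd hN _ _ (Nat.mul_pos (deg_pos' _) (MI.deg_pos _)) _)]
  exact eulerProd_subtype (fun v : Place k K => v ∉ A) (d := fun v => v.deg)
    (fun n => places_fin n) (f := fun v => lineE (F := v.RF) N
      (splitPoly (redPts N a u r v) e) (χ v) v.deg)
    (fun v _ => lineE_dvd hN _ _ (deg_pos' v))

theorem card_dvd {l : ℕ} (hq : l ∣ Nat.card k - 1) (v : Place k K) : l ∣ Nat.card v.RF - 1 := by
  have hvfin : Module.Finite k v.RF := Module.finite_of_finrank_pos (deg_pos' v)
  rw [Module.natCard_eq_pow_finrank (K := k) (V := v.RF)]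
  exact hq.trans (Nat.sub_one_dvd_pow_sub_one _ _)

/-- the global identity -/
theorem glob_identity {l : ℕ} [hl : Fact l.Prime] (hq : l ∣ Nat.card k - 1) {s n : ℕ} (hn : 0 < n)
    (A T : Finset (FF.Place k K)) (hAT : A ⊆ T) (a : Fin n → K) {e : Fin n → ℕ}
    (he : ∀ i, e i ≠ 0) (u r : FF.Place k K → K)
    (hgood : ∀ v, v ∉ T → Function.Injective (redPts (l ^ s) a u r v)) (χ : FF.Place k K → ℤ)
    [∀ v, Decidable (v ∈ A)] :
    redL l (LOutside (l ^ s) A a e u r χ) *
      eulerProd (fun v : Place k K => v.deg)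
        (fun v => (1 - PowerSeries.C (χ v : ZMod l) * PowerSeries.X ^ v.deg :
          PowerSeries (ZMod l))) ^ ((l ^ s - 1) * (n - 1)) =
      ∏ v ∈ T, (1 - PowerSeries.C (χ v : ZMod l) * PowerSeries.X ^ v.deg) ^
        ((l ^ s - 1) * drop (l ^ s) A a u r v) := by
  classical
  have hfv : ∀ v : Place k K, Finite v.RF := Pool.Agent.W313.Hyp.finite_RF
  have hN : 0 < l ^ s := pow_pos hl.out.pos _
  have hfin := fun n => places_fin (k := k) (K := K) n
  set Z : Place k K → PowerSeries (ZMod l) :=
    fun v => 1 - PowerSeries.C (χ v : ZMod l) * PowerSeries.X ^ v.deg with hZ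
  have hZ1 : ∀ v, (X : PowerSeries (ZMod l)) ^ v.deg ∣ Z v - 1 := fun v => dvd_term _ _
  have hZm : ∀ (v : Place k K) (m : ℕ), (X : PowerSeries (ZMod l)) ^ v.deg ∣ Z v ^ m - 1 := by
    intro v m
    have h1 := prod_congr_mod (Finset.range m) (fun _ => Z v) (fun _ => 1) v.deg
      (fun _ _ => hZ1 v)
    simpa using h1
  set W0 : Place k K → PowerSeries ℤ := fun v => if v ∉ A then
    lineE (F := v.RF) (l ^ s) (splitPoly (redPts (l ^ s) a u r v) e) (χ v) v.deg else 1 with hW0
  have hW01 : ∀ v, (X : PowerSeries ℤ) ^ v.deg ∣ W0 v - 1 := by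
    intro v
    show _ ∣ (if v ∉ A then _ else _) - 1
    split_ifs with hv
    · rw [sub_self]; exact dvd_zero _
    · exact lineE_dvd hN _ _ (deg_pos' v)
  have hW1 : ∀ v, (X : PowerSeries (ZMod l)) ^ v.deg ∣ redL l (W0 v) - 1 := by
    intro v
    have h3 := map_dvd (redL l) (hW01 v)
    rwa [map_sub, map_one, map_pow, PowerSeries.map_X] at h3
  have hloc : ∀ v : Place k K, redL l (W0 v) * Z v ^ ((l ^ s - 1) * (n - 1)) =
      Z v ^ ((l ^ s - 1) * drop (l ^ s) A a u r v) := by
    intro v
    by_cases hv : v ∈ A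
    · have e1 : W0 v = 1 := by
        show (if v ∉ A then _ else _) = _
        rw [if_neg (not_not.2 hv)]
      have e2 : drop (l ^ s) A a u r v = n - 1 := by
        unfold drop
        rw [if_pos hv]
      rw [e1, map_one, one_mul, e2]
    · have e1 : W0 v = lineE (F := v.RF) (l ^ s) (splitPoly (redPts (l ^ s) a u r v) e) (χ v)
          v.deg := by
        show (if v ∉ A then _ else _) = _
        rw [if_pos hv]
      have e2 : drop (l ^ s) A a u r v = n - numPts (redPts (l ^ s) a u r v) := by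
        unfold drop
        rw [if_neg hv]
      have h1 := line_mod (F := v.RF) (card_dvd hq v) (s := s) hn (redPts (l ^ s) a u r v) he (χ v)
        (deg_pos' v)
      have h2 := numPts_pos hn (redPts (l ^ s) a u r v)
      have h3 := numPts_le (redPts (l ^ s) a u r v)
      have h4 : (l ^ s - 1) * (n - 1) = (l ^ s - 1) * (numPts (redPts (l ^ s) a u r v) - 1) +
          (l ^ s - 1) * (n - numPts (redPts (l ^ s) a u r v)) := by
        rw [← Nat.mul_add]
        congr 1
        omega
      rw [e1, e2, h4, pow_add, ← mul_assoc]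
      have h5 : redL l (lineE (F := v.RF) (l ^ s) (splitPoly (redPts (l ^ s) a u r v) e) (χ v)
          v.deg) * Z v ^ ((l ^ s - 1) * (numPts (redPts (l ^ s) a u r v) - 1)) = 1 := h1
      rw [h5, one_mul]
  have hd0 : ∀ v, v ∉ T → drop (l ^ s) A a u r v = 0 := by
    intro v hv
    unfold drop
    rw [if_neg (fun h => hv (hAT h)), numPts_inj (hgood v hv), Nat.sub_self]
  rw [LOutside_eq hN, map_eulerProd hfin, ← eulerProd_pow hfin hZ1,
    ← eulerProd_mul hfin hW1 (fun v => hZm v _)]
  have h6 : (fun v => redL l (W0 v) * Z v ^ ((l ^ s - 1) * (n - 1))) = fun v =>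
      Z v ^ ((l ^ s - 1) * drop (l ^ s) A a u r v) := funext hloc
  have h7 := eulerProd_of_finset hfin (f := fun v => Z v ^ ((l ^ s - 1) * drop (l ^ s) A a u r v))
    (fun v => hZm v _) T (fun v hv => by
      show Z v ^ ((l ^ s - 1) * drop (l ^ s) A a u r v) = 1
      rw [hd0 v hv, mul_zero, pow_zero])
  rw [← h7, ← h6]

/-- the order of vanishing modulo `l` -/
theorem glob_eq {l : ℕ} [hl : Fact l.Prime] (hq : l ∣ Nat.card k - 1) {s n : ℕ} (hn : 0 < n)
    (A T : Finset (FF.Place k K)) (hAT : A ⊆ T) (a : Fin n → K) {e : Fin n → ℕ}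
    (he : ∀ i, e i ≠ 0) (u r : FF.Place k K → K)
    (hgood : ∀ v, v ∉ T → Function.Injective (redPts (l ^ s) a u r v)) (χ : FF.Place k K → ℤ)
    [∀ v, Decidable (v ∈ A)] {P Q : Polynomial (ZMod l)} (hP : P ≠ 0) (hQ : Q ≠ 0)
    (hrel : (Q : PowerSeries (ZMod l)) * eulerProd (fun v : Place k K => v.deg)
        (fun v => (1 - PowerSeries.C (χ v : ZMod l) * PowerSeries.X ^ v.deg :
          PowerSeries (ZMod l))) = (P : PowerSeries (ZMod l)))
    {m : ℕ} {G H : Polynomial ℤ} (hH : H.map (Int.castRingHom (ZMod l)) ≠ 0)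
    (hG : LOutside (l ^ s) A a e u r χ * (H : PowerSeries ℤ) =
      (((1 - Polynomial.C (Nat.card k : ℤ) * Polynomial.X) ^ m * G :
      Polynomial ℤ) : PowerSeries ℤ)) :
    m + (G.map (Int.castRingHom (ZMod l))).rootMultiplicity 1 +
        (l ^ s - 1) * (n - 1) * P.rootMultiplicity 1 =
      (l ^ s - 1) * (n - 1) * Q.rootMultiplicity 1 +
        (l ^ s - 1) * ∑ v ∈ T, (if (χ v : ZMod l) = 1 then
          drop (l ^ s) A a u r v * l ^ padicValNat l v.deg else 0) +
        (H.map (Int.castRingHom (ZMod l))).rootMultiplicity 1 := by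
  classical
  set M := (l ^ s - 1) * (n - 1) with hM
  set GG : Polynomial (ZMod l) := G.map (Int.castRingHom (ZMod l)) with hGG
  set HH : Polynomial (ZMod l) := H.map (Int.castRingHom (ZMod l)) with hHH
  have hcard : ((Nat.card k : ℕ) : ZMod l) = 1 := by
    obtain ⟨t, ht⟩ := hq
    have h3 : 1 ≤ Nat.card k := Nat.card_pos
    have h4 : Nat.card k = l * t + 1 := by omega
    rw [h4]
    push_cast
    rw [ZMod.natCast_self, zero_mul, zero_add]
  have hred : redL l (LOutside (l ^ s) A a e u r χ) * (HH : PowerSeries (ZMod l)) =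
      (((1 - Polynomial.C 1 * Polynomial.X ^ 1) ^ m * GG : Polynomial (ZMod l)) :
        PowerSeries (ZMod l)) := by
    rw [hHH, ← redL_poly, ← map_mul, hG, redL_poly]
    congr 1
    rw [Polynomial.map_mul, Polynomial.map_pow, Polynomial.map_sub, Polynomial.map_one,
      Polynomial.map_mul, Polynomial.map_C, Polynomial.map_X]
    have h3 : (Int.castRingHom (ZMod l)) (Nat.card k : ℤ) = 1 := by
      rw [eq_intCast, Int.cast_natCast, hcard]
    rw [h3, pow_one]
  have hid := glob_identity hq hn A T hAT a he u r hgood χ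
  set E := eulerProd (fun v : Place k K => v.deg)
        (fun v => (1 - PowerSeries.C (χ v : ZMod l) * PowerSeries.X ^ v.deg :
          PowerSeries (ZMod l))) with hE
  set z : Place k K → Polynomial (ZMod l) :=
    fun v => 1 - Polynomial.C (χ v : ZMod l) * Polynomial.X ^ v.deg with hz
  set R : Polynomial (ZMod l) := ∏ v ∈ T, z v ^ ((l ^ s - 1) * drop (l ^ s) A a u r v) with hR
  have hRc : (R : PowerSeries (ZMod l)) = ∏ v ∈ T,
      (1 - PowerSeries.C (χ v : ZMod l) * PowerSeries.X ^ v.deg) ^
        ((l ^ s - 1) * drop (l ^ s) A a u r v) := by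
    rw [hR, coe_prod']
    refine Finset.prod_congr rfl fun v _ => ?_
    rw [Polynomial.coe_pow, hz, Polynomial.coe_sub, Polynomial.coe_one, Polynomial.coe_mul,
      Polynomial.coe_C, Polynomial.coe_pow, Polynomial.coe_X]
  rw [← hRc] at hid
  have hpoly : (1 - Polynomial.C 1 * Polynomial.X ^ 1) ^ m * GG * P ^ M = HH * Q ^ M * R := by
    apply Polynomial.coe_injective
    rw [Polynomial.coe_mul, ← hred, Polynomial.coe_mul, Polynomial.coe_mul, ← hid,
      Polynomial.coe_pow, Polynomial.coe_pow, ← hrel]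
    ring
  have hz0 : ∀ v : Place k K, z v ≠ 0 := fun v =>
    Pool.Agent.W309.T3.binom_ne (deg_pos' v)
  have hR0' : ∀ v ∈ T, z v ^ ((l ^ s - 1) * drop (l ^ s) A a u r v) ≠ 0 :=
    fun v _ => pow_ne_zero _ (hz0 v)
  have hR0 : R ≠ 0 := Finset.prod_ne_zero_iff.2 hR0'
  have hright : HH * Q ^ M * R ≠ 0 := mul_ne_zero (mul_ne_zero hH (pow_ne_zero _ hQ)) hR0
  have h1 : (1 - Polynomial.C 1 * Polynomial.X ^ 1 : Polynomial (ZMod l)) ≠ 0 :=
    Pool.Agent.W309.T3.binom_ne one_pos
  have hGG0 : GG ≠ 0 := by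
    intro h0
    rw [h0, mul_zero, zero_mul] at hpoly
    exact hright hpoly.symm
  have hone : (1 : ZMod l) ≠ 0 := one_ne_zero
  have hrm := congrArg (fun S : Polynomial (ZMod l) => S.rootMultiplicity 1) hpoly
  rw [rm_mul 1 (mul_ne_zero (pow_ne_zero _ h1) hGG0) (pow_ne_zero _ hP),
    rm_mul 1 (pow_ne_zero _ h1) hGG0, rm_pow 1 h1, rm_pow 1 hP,
    rm_mul 1 (mul_ne_zero hH (pow_ne_zero _ hQ)) hR0, rm_mul 1 hH (pow_ne_zero _ hQ),
    rm_pow 1 hQ, Pool.Agent.W309.T3.rm_binom l hone one_pos] at hrm
  have h2 : R.rootMultiplicity 1 = (l ^ s - 1) * ∑ v ∈ T, (if (χ v : ZMod l) = 1 then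
          drop (l ^ s) A a u r v * l ^ padicValNat l v.deg else 0) := by
    rw [hR, rm_prod 1 _ _ hR0', Finset.mul_sum]
    refine Finset.sum_congr rfl fun v _ => ?_
    rw [rm_pow 1 (hz0 v), Pool.Agent.W309.T3.rm_binom l hone (deg_pos' v), one_pow, mul_one]
    split_ifs
    · ring
    · simp
  rw [h2] at hrm
  simp only [one_pow, mul_one, if_true, padicValNat.one, pow_zero] at hrm
  omega

end glob

end Pool.Agent.J6H43.SE
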