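import Pool.Agent.J6H43.SE.Quad

/-!
The order of vanishing modulo `l` for the curves `y ^ l = x ^ (l - 1) (x + 1) (x + h ^ d)`.
-/

set_option autoImplicit false
set_option linter.all false
set_option maxHeartbeats 4000000

open FF Module Polynomial

namespace Pool.Agent.J6H43.SE

open Pool.Agent.W343.BSD

section defs

variable {k K : Type} [Field k] [Field K] [Algebra k K]

/-- The branch points of `y ^ l = x ^ (l - 1) (x + 1) (x + h ^ d)`. -/
def legPts (d : ℕ) (h : K) : Fin 3 → K := ![0, -1, -h ^ d]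

/-- The exponents of `y ^ l = x ^ (l - 1) (x + 1) (x + h ^ d)`. -/
def legExp (l : ℕ) : Fin 3 → ℕ := ![l - 1, 1, 1]

open Classical in
/-- The element `1` at the places where `h` is regular and `h ^ m` at the poles of `h`. -/
noncomputable def legU (k : Type) {K : Type} [Field k] [Field K] [Algebra k K] (m : ℕ) (h : K)
    (v : FF.Place k K) : K := if v.Reg h then 1 else h ^ m

end defs

section leg

variable {k K : Type} [Field k] [Finite k] [Field K] [Algebra k K] [FF.IsFF k K]

theorem red_zero' (v : Place k K) : v.red (0 : K) = 0 := (v.red_eq_zero_iff v.reg_zero).2 (Or.inl rfl)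

theorem red_neg_one_ne (v : Place k K) : v.red (0 : K) ≠ v.red (-1 : K) := by
  rw [red_zero']
  intro h
  rcases (v.red_eq_zero_iff (v.reg_neg v.reg_one)).1 h.symm with h1 | h1
  · exact one_ne_zero (neg_eq_zero.1 h1)
  · rw [v.ord_neg_one] at h1
    exact lt_irrefl _ h1

/-- equality of the reductions -/
theorem red_eq_iff (v : Place k K) {x y : K} (hx : v.Reg x) (hy : v.Reg y) :
    v.red x = v.red y ↔ x = y ∨ 0 < v.ord (x - y) := by
  have h1 := v.red_sub hx hy
  have hr : v.Reg (x - y) := by
    rw [sub_eq_add_neg]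
    exact v.reg_add hx (v.reg_neg hy)
  rw [← sub_eq_zero, ← h1, v.red_eq_zero_iff hr, sub_eq_zero]

theorem leg_reg {v : Place k K} {l m : ℕ} {h : K} (hv : v.Reg h) :
    redPts l (legPts (l * m) h) (legU k m h) (fun _ => 0) v =
      ![v.red 0, v.red (-1), v.red (-h ^ (l * m))] := by
  funext i
  unfold redPts
  rw [S.red_eq, sub_zero]
  unfold legU
  rw [if_pos hv, one_pow, div_one]
  fin_cases i <;> rfl

theorem leg_pole {v : Place k K} {l m : ℕ} {h : K} (hv : ¬ v.Reg h) :
    redPts l (legPts (l * m) h) (legU k m h) (fun _ => 0) v =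
      ![v.red 0, v.red (-(h ^ (l * m))⁻¹), v.red (-1)] := by
  have h0 : h ≠ 0 := by
    rintro rfl
    exact hv v.reg_zero
  funext i
  unfold redPts
  rw [S.red_eq, sub_zero]
  unfold legU
  rw [if_neg hv, ← pow_mul, mul_comm m l]
  fin_cases i
  · show v.red (0 / h ^ (l * m)) = v.red 0
    rw [zero_div]
  · show v.red (-1 / h ^ (l * m)) = v.red (-(h ^ (l * m))⁻¹)
    rw [neg_div, one_div]
  · show v.red (-h ^ (l * m) / h ^ (l * m)) = v.red (-1)
    rw [neg_div, div_self (pow_ne_zero _ h0)]

theorem pole_inv {v : Place k K} {n : ℕ} (hn : 0 < n) {h : K} (hv : ¬ v.Reg h) :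
    v.Reg (-(h ^ n)⁻¹) ∧ v.red (-(h ^ n)⁻¹) = 0 := by
  have h0 : h ≠ 0 := by
    rintro rfl
    exact hv v.reg_zero
  have h1 : v.ord h < 0 := by
    by_contra h2
    exact hv (Or.inr (not_lt.1 h2))
  have h2 : 0 < v.ord (-(h ^ n)⁻¹) := by
    rw [v.ord_neg, v.ord_inv, v.ord_pow]
    have hn' : (0 : ℤ) < n := by exact_mod_cast hn
    nlinarith
  exact ⟨Or.inr h2.le, (v.red_eq_zero_iff (Or.inr h2.le)).2 (Or.inr h2)⟩

theorem numPts_three {F : Type} {x y z : F} (h : x = y ∨ x = z ∨ y = z) (hne : ¬ (x = y ∧ x = z)) :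
    numPts ![x, y, z] = 2 := by
  classical
  unfold numPts
  have e : Finset.univ.image ![x, y, z] = {x, y, z} := by
    ext w
    simp only [Finset.mem_image, Finset.mem_univ, true_and, Finset.mem_insert,
      Finset.mem_singleton]
    constructor
    · rintro ⟨i, rfl⟩
      fin_cases i <;> simp
    · rintro (rfl | rfl | rfl)
      · exact ⟨0, rfl⟩
      · exact ⟨1, rfl⟩
      · exact ⟨2, rfl⟩
  have e' : (Finset.univ.image ![x, y, z]).card = 2 := by
    rw [e]
    rcases h with rfl | rfl | rfl
    · have : x ≠ z := fun h => hne ⟨rfl, h⟩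
      simp [this]
    · have : x ≠ y := fun h => hne ⟨h, rfl⟩
      rw [Finset.insert_comm]
      simp [this, this.symm]
    · have : x ≠ y := fun h => hne ⟨h, h⟩
      simp [this]
  convert e'

theorem inj_three {F : Type} {x y z : F} (h1 : x ≠ y) (h2 : x ≠ z) (h3 : y ≠ z) :
    Function.Injective ![x, y, z] := by
  intro i j hij
  fin_cases i <;> fin_cases j
  · rfl
  · exact absurd hij h1
  · exact absurd hij h2
  · exact absurd hij.symm h1
  · rfl
  · exact absurd hij h3
  · exact absurd hij.symm h2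
  · exact absurd hij.symm h3
  · rfl

theorem neg_pow_red {v : Place k K} {n : ℕ} (hn : 0 < n) {h : K} (hv : v.Reg h) (h0 : h ≠ 0)
    (h1 : h ^ n ≠ 1) :
    (v.red 0 = v.red (-h ^ n) ↔ 0 < v.ord h) ∧
      (v.red (-1) = v.red (-h ^ n) ↔ 0 < v.ord (h ^ n - 1)) := by
  have hr : v.Reg (-h ^ n) := by
    apply v.reg_neg
    refine Or.inr ?_
    rw [v.ord_pow]
    exact mul_nonneg (by positivity) ((v.reg_iff h0).1 hv)
  have hn' : (0 : ℤ) < n := by exact_mod_cast hn
  constructor
  · rw [red_eq_iff v v.reg_zero hr, zero_sub, neg_neg, v.ord_pow]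
    constructor
    · rintro (h2 | h2)
      · exact absurd (neg_eq_zero.1 h2.symm) (pow_ne_zero _ h0)
      · by_contra h3
        push Not at h3
        have := mul_nonpos_of_nonneg_of_nonpos hn'.le h3
        omega
    · intro h2
      exact Or.inr (mul_pos hn' h2)
  · rw [red_eq_iff v (v.reg_neg v.reg_one) hr]
    have e : -1 - -h ^ n = h ^ n - 1 := by ring
    rw [e]
    constructor
    · rintro (h2 | h2)
      · exact absurd (neg_injective h2).symm h1
      · exact h2
    · exact Or.inr

/-- the order of vanishing modulo `l` -/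
theorem leg_order {l : ℕ} [hl : Fact l.Prime] (hq : l ∣ Nat.card k - 1) {PK : Polynomial ℤ}
    (hP : IsZetaNumRel k K PK) (hr : constDeg k K = 1) {m : ℕ} (hm : 0 < m) {h : K}
    (hh : ∀ x : k, h ≠ algebraMap k K x) :
    (∃ T : Finset (Place k K), IsModel l (legPts (l * m) h) ∅ T (legU k m h) (fun _ => 0)) ∧
    OrderEq k l (LOutside l ∅ (legPts (l * m) h) (legExp l) (legU k m h) (fun _ => 0)
      (fun _ => 1)) (((l - 1 : ℕ) : ℤ) * (2 * mu l PK + ((poleSum l k h : ℤ) - 1) +
        ((zeroSum l k h : ℤ) - 1) + ((zeroSum l k (h ^ (l * m) - 1) : ℤ) - 2))) := by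
  classical
  set d := l * m with hd
  have hd0 : 0 < d := Nat.mul_pos hl.out.pos hm
  have h0 : h ≠ 0 := by
    rintro rfl
    exact hh 0 (map_zero _).symm
  have halg : ∀ n : ℕ, 0 < n → h ^ n ≠ 1 := by
    intro n hn h1
    have hint : IsAlgebraic k h := by
      refine ⟨X ^ n - 1, ?_, ?_⟩
      · rw [← C_1]
        exact X_pow_sub_C_ne_zero hn 1
      · simp [h1]
    obtain ⟨x, hx⟩ := Pool.Agent.N874.DH.alg_of_const hr h hint
    exact hh x hx.symm
  have h1 : h ^ d ≠ 1 := halg d hd0
  have fz : {v : Place k K | 0 < v.ord h}.Finite :=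
    (Pool.Agent.H525R3.FFp.finite_support (k := k) h).subset fun v hv => (ne_of_gt hv : v.ord _ ≠ 0)
  have fp' : {v : Place k K | ¬ v.Reg h}.Finite :=
    (Pool.Agent.H525R3.FFp.finite_support (k := k) h).subset fun v hv => by
      intro h2
      exact hv (Or.inr h2.ge)
  have fo : {v : Place k K | 0 < v.ord (h ^ d - 1)}.Finite :=
    (Pool.Agent.H525R3.FFp.finite_support (k := k) (h ^ d - 1)).subset
      fun v hv => (ne_of_gt hv : v.ord _ ≠ 0)
  set Zz := fz.toFinset with hZz
  set Zp := fp'.toFinset with hZp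
  set Zo := fo.toFinset with hZo
  have mz : ∀ v, v ∈ Zz ↔ 0 < v.ord h := fun v => Set.Finite.mem_toFinset _
  have mp : ∀ v, v ∈ Zp ↔ ¬ v.Reg h := fun v => Set.Finite.mem_toFinset _
  have mo : ∀ v, v ∈ Zo ↔ 0 < v.ord (h ^ d - 1) := fun v => Set.Finite.mem_toFinset _
  have ro : ∀ v : Place k K, 0 < v.ord (h ^ d - 1) → v.Reg h ∧ v.ord h = 0 := by
    intro v hv
    have h2 : v.ord (h ^ d) = 0 := by
      have h3 := v.ord_add_eq (f := 1) (g := h ^ d - 1) one_ne_zero (sub_ne_zero.2 h1) (by
        rw [v.ord_one]; exact hv)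
      rw [add_sub_cancel, v.ord_one] at h3
      exact h3.2
    rw [v.ord_pow] at h2
    have h4 : v.ord h = 0 := by
      rcases mul_eq_zero.1 h2 with h5 | h5
      · exact absurd h5 (by exact_mod_cast hd0.ne')
      · exact h5
    exact ⟨Or.inr h4.ge, h4⟩
  have d1 : Disjoint Zz Zo := by
    rw [Finset.disjoint_left]
    intro v a b
    have := (ro v ((mo v).1 b)).2
    have := (mz v).1 a
    omega
  have d2 : Disjoint Zp (Zz ∪ Zo) := by
    rw [Finset.disjoint_left]
    intro v a b
    rcases Finset.mem_union.1 b with c | c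
    · exact (mp v).1 a (Or.inr ((mz v).1 c).le)
    · exact (mp v).1 a (ro v ((mo v).1 c)).1
  set T : Finset (Place k K) := Zp ∪ (Zz ∪ Zo) with hT
  have hNP : ∀ v : Place k K, v ∈ T → numPts (redPts (l ^ 1) (legPts d h) (legU k m h)
      (fun _ => 0) v) = 2 := by
    intro v hv
    rw [pow_one]
    rcases Finset.mem_union.1 hv with c | c
    · rw [hd, leg_pole ((mp v).1 c)]
      have h3 := (pole_inv (n := l * m) hd0 ((mp v).1 c)).2
      apply numPts_three
      · left; rw [h3, red_zero']
      · rintro ⟨-, h4⟩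
        exact red_neg_one_ne v h4
    · have hreg : v.Reg h := by
        by_contra h4
        exact Finset.disjoint_left.1 d2 ((mp v).2 h4) c
      obtain ⟨g1, g2⟩ := neg_pow_red (n := l * m) hd0 hreg h0 h1
      rw [hd, leg_reg hreg]
      apply numPts_three
      · rcases Finset.mem_union.1 c with e | e
        · right; left; exact g1.2 ((mz v).1 e)
        · right; right; exact g2.2 ((mo v).1 e)
      · rintro ⟨h4, -⟩
        exact red_neg_one_ne v h4
  have hgood : ∀ v, v ∉ T →
      Function.Injective (redPts (l ^ 1) (legPts d h) (legU k m h) (fun _ => 0) v) := by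
    intro v hv
    rw [pow_one]
    rw [hT, Finset.mem_union, Finset.mem_union, not_or, not_or] at hv
    have hreg : v.Reg h := by
      by_contra h4
      exact hv.1 ((mp v).2 h4)
    obtain ⟨g1, g2⟩ := neg_pow_red (n := l * m) hd0 hreg h0 h1
    have e1 : v.red (0 : K) ≠ v.red (-1) := red_neg_one_ne v
    have e2 : v.red (0 : K) ≠ v.red (-h ^ (l * m)) := fun h => hv.2.1 ((mz v).2 (g1.1 h))
    have e3 : v.red (-1 : K) ≠ v.red (-h ^ (l * m)) := fun h => hv.2.2 ((mo v).2 (g2.1 h))
    rw [hd, leg_reg hreg]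
    exact inj_three e1 e2 e3
  refine ⟨⟨T, Finset.empty_subset _, ?_, ?_, fun v hv => by
    have h2 := hgood v hv
    rwa [pow_one] at h2⟩, ?_⟩
  · intro v _
    unfold legU
    split_ifs
    · exact one_ne_zero
    · exact pow_ne_zero _ h0
  · intro v _ i
    have ev : ∀ x : K, v.Reg x → v.Reg (-x) := fun x hx => v.reg_neg hx
    by_cases hv : v.Reg h
    · have e1 : (legPts (l * m) h i - 0) / legU k m h v ^ l = legPts (l * m) h i := by
        unfold legU
        rw [if_pos hv, one_pow, div_one, sub_zero]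
      rw [e1]
      fin_cases i
      · exact v.reg_zero
      · exact ev _ v.reg_one
      · refine ev _ (Or.inr ?_)
        rw [v.ord_pow]
        exact mul_nonneg (by positivity) ((v.reg_iff h0).1 hv)
    · have e1 : (legPts (l * m) h i - 0) / legU k m h v ^ l = legPts (l * m) h i / h ^ (l * m) := by
        unfold legU
        rw [if_neg hv, sub_zero, ← pow_mul, mul_comm m l]
      rw [e1]
      fin_cases i
      · show v.Reg (0 / h ^ (l * m))
        rw [zero_div]
        exact v.reg_zero
      · show v.Reg (-1 / h ^ (l * m))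
        rw [neg_div, one_div]
        exact (pole_inv (n := l * m) hd0 hv).1
      · show v.Reg (-h ^ (l * m) / h ^ (l * m))
        rw [neg_div, div_self (pow_ne_zero _ h0)]
        exact ev _ v.reg_one
  have he : ∀ i, legExp l i ≠ 0 := by
    have := hl.out.two_le
    intro i
    fin_cases i
    · show l - 1 ≠ 0
      omega
    · show 1 ≠ 0
      omega
    · show 1 ≠ 0
      omega
  have hmain := order_one hq hP hr (s := 1) (n := 3) (by norm_num) ∅ T (Finset.empty_subset _)
    (legPts d h) he (legU k m h) (fun _ => 0) hgood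
  have hdrop : ∀ v ∈ T, ((drop (l ^ 1) ∅ (legPts d h) (legU k m h) (fun _ => 0) v *
      l ^ padicValNat l v.deg : ℕ) : ℤ) = ((l ^ padicValNat l (S.deg v) : ℕ) : ℤ) := by
    intro v hv
    unfold drop
    rw [if_neg (Finset.notMem_empty v), hNP v hv, S.deg_eq]
    norm_num
  rw [Finset.sum_congr rfl hdrop, ← Nat.cast_sum, hT, Finset.sum_union d2, Finset.sum_union d1,
    ← cond_sum mp, ← cond_sum mz, ← cond_sum mo, pow_one] at hmain
  have e4 : (((l - 1 : ℕ) : ℤ) * (((3 - 1 : ℕ) : ℤ) * ((mu l PK : ℤ) - 2) +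
      ((poleSum l k h + (zeroSum l k h + zeroSum l k (h ^ d - 1)) : ℕ) : ℤ))) =
      (((l - 1 : ℕ) : ℤ) * (2 * mu l PK + ((poleSum l k h : ℤ) - 1) +
        ((zeroSum l k h : ℤ) - 1) + ((zeroSum l k (h ^ d - 1) : ℤ) - 2))) := by
    push_cast
    ring
  rw [← e4]
  exact hmain

/-- the zeros of `h ^ d - 1` -/
theorem zeroSum_roots {l d : ℕ} (hd : 0 < d) {ω : k} (hω : IsPrimitiveRoot ω d) {h : K}
    (hh : ∀ x : k, h ≠ algebraMap k K x) :
    zeroSum l k (h ^ d - 1) =
      ∑ c ∈ nthRootsFinset d (1 : k), zeroSum l k (h - algebraMap k K c) := by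
  classical
  have hfac : h ^ d - 1 = ∏ c ∈ nthRootsFinset d (1 : k), (h - algebraMap k K c) := by
    have h1 := congrArg (aeval h) (X_pow_sub_one_eq_prod hd hω)
    rw [map_prod] at h1
    simpa using h1
  have hne : ∀ c : k, h - algebraMap k K c ≠ 0 := fun c => sub_ne_zero.2 (hh c)
  have hfin : ∀ c : k, {v : Place k K | 0 < v.ord (h - algebraMap k K c)}.Finite := fun c =>
    (Pool.Agent.H525R3.FFp.finite_support (k := k) (h - algebraMap k K c)).subset
      fun v hv => (ne_of_gt hv : v.ord _ ≠ 0)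
  set Z : k → Finset (Place k K) := fun c => (hfin c).toFinset with hZ
  have hZm : ∀ c v, v ∈ Z c ↔ 0 < v.ord (h - algebraMap k K c) := by
    intro c v
    rw [hZ]
    exact Set.Finite.mem_toFinset _
  have hothers : ∀ (v : Place k K) (b c : k), b ≠ c → 0 < v.ord (h - algebraMap k K c) →
      v.ord (h - algebraMap k K b) = 0 := by
    intro v b c hbc hv
    have e : h - algebraMap k K b = algebraMap k K (c - b) + (h - algebraMap k K c) := by
      rw [map_sub]; ring
    have hcb : c - b ≠ 0 := sub_ne_zero.2 hbc.symm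
    have h5 : v.ord (algebraMap k K (c - b)) = 0 := v.ord_const hcb
    rw [e, (v.ord_add_eq ((_root_.map_ne_zero _).2 hcb) (hne c) (by rw [h5]; exact hv)).2, h5]
  have hsum : ∀ v : Place k K, v.ord (h ^ d - 1) =
      ∑ c ∈ nthRootsFinset d (1 : k), v.ord (h - algebraMap k K c) := by
    intro v
    rw [hfac]
    generalize nthRootsFinset d (1 : k) = s
    induction s using Finset.induction_on with
    | empty => simp [v.ord_one]
    | insert j s hj ih =>
      rw [Finset.prod_insert hj, Finset.sum_insert hj, v.ord_mul (hne j)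
        (Finset.prod_ne_zero_iff.2 fun i _ => hne i), ih]
  have hU : ∀ v : Place k K, v ∈ (nthRootsFinset d (1 : k)).biUnion Z ↔
      0 < v.ord (h ^ d - 1) := by
    intro v
    rw [Finset.mem_biUnion]
    constructor
    · rintro ⟨c, hc, hv⟩
      have hv' := (hZm c v).1 hv
      rw [hsum v, Finset.sum_eq_single c (fun b _ hb => hothers v b c hb hv')
        (fun h => absurd hc h)]
      exact hv'
    · intro hv
      by_contra hcon
      push Not at hcon
      rw [hsum v] at hv
      have h2 : ∑ c ∈ nthRootsFinset d (1 : k), v.ord (h - algebraMap k K c) ≤ 0 := by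
        refine Finset.sum_nonpos fun c hc => ?_
        by_contra h3
        exact hcon c hc ((hZm c v).2 (not_le.1 h3))
      omega
  have hpw : ((nthRootsFinset d (1 : k) : Finset k) : Set k).PairwiseDisjoint Z := by
    intro b _ c _ hbc
    rw [Function.onFun, Finset.disjoint_left]
    intro v hv hv'
    have h1 := hothers v b c hbc ((hZm c v).1 hv')
    have h2 := (hZm b v).1 hv
    omega
  unfold zeroSum
  rw [cond_sum hU, Finset.sum_biUnion hpw]
  exact Finset.sum_congr rfl fun c _ => (cond_sum (hZm c) _).symm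

end leg

end Pool.Agent.J6H43.SE
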