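import Pool.Agent.N874.DH.C7

/-!
Counting the squarefree polynomials `D` such that given places do not split in `k(t)(√D)`.
-/

set_option autoImplicit false
set_option linter.all false
set_option maxHeartbeats 4000000

open FF Module Polynomial Filter

namespace Pool.Agent.J6H43.SE

open Pool.Agent.W343.BSD Pool.Agent.W309.RF Pool.Agent.H525R3.FFp Pool.Agent.TH639.B3
open Pool.Agent.N874.DH

variable {k : Type} [Field k]

/-- The squarefree polynomials `D` of degree `n` for which the places in `B` do not split. -/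
def NonSplit (B : Finset (Place k (RatFunc k))) (n : ℕ) : Set k[X] :=
  {D | D.natDegree = n ∧ Squarefree D ∧ ∀ v ∈ B, ¬ LocSq v (A D)}

variable [Finite k]

theorem nonsplit_classes (B : Finset (Place k (RatFunc k))) :
    ∃ (T : Finset k[X]), Primes T ∧ ∀ n, Odd n → ∀ D, D ∈ NonSplit B n ↔ D.natDegree = n ∧
      Squarefree D ∧ ∀ π ∈ T, typ π D ≠ .sq := by
  classical
  have hch : ∀ v : Place k (RatFunc k), ∃ π : k[X], 0 ≤ v.ord RatFunc.X →
      (π.Monic ∧ Irreducible π ∧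
      (∀ D : k[X], Squarefree D → (LocSq v (A D) ↔ ¬ π ∣ D ∧ ∃ h : k[X], π ∣ h ^ 2 - D))) := by
    intro v
    by_cases hv : 0 ≤ v.ord RatFunc.X
    · obtain ⟨π, h1, h2, h3, h4, h5⟩ := place_data hv
      exact ⟨π, fun _ => ⟨h1, h2, h5⟩⟩
    · exact ⟨0, fun h => absurd h hv⟩
  choose P hP using hch
  set Bf := B.filter (fun v => 0 ≤ v.ord RatFunc.X) with hBf
  refine ⟨Bf.image P, ?_, ?_⟩
  · intro π hπ
    obtain ⟨v, hv, rfl⟩ := Finset.mem_image.1 hπ
    obtain ⟨h1, h2, -⟩ := hP v (Finset.mem_filter.1 hv).2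
    exact ⟨h1, h2⟩
  · intro n ho D
    unfold NonSplit
    rw [Set.mem_setOf_eq]
    refine and_congr_right fun hn => and_congr_right fun hs => ?_
    constructor
    · intro h π hπ ht
      obtain ⟨v, hv, rfl⟩ := Finset.mem_image.1 hπ
      obtain ⟨hvB, hvX⟩ := Finset.mem_filter.1 hv
      exact h v hvB (((hP v hvX).2.2 D hs).2 (typ_sq_iff.1 ht))
    · intro h v hvB hl
      by_cases hvX : 0 ≤ v.ord RatFunc.X
      · exact h (P v) (Finset.mem_image_of_mem _ (Finset.mem_filter.2 ⟨hvB, hvX⟩))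
          (typ_sq_iff.2 (((hP v hvX).2.2 D hs).1 hl))
      · apply even_of_locSq (A_ne hs.ne_zero) hl
        rw [inf_ord' (not_le.1 hvX) hs.ne_zero, hn]
        exact ((Int.odd_coe_nat _).2 ho).neg

theorem nonsplit_count (h6 : (6 : k) ≠ 0) (B : Finset (Place k (RatFunc k))) :
    (∃ c : ℝ, 0 < c ∧ ∀ᶠ n : ℕ in atTop, Odd n →
      c * (Nat.card k : ℝ) ^ n ≤ ((NonSplit B n).ncard : ℝ)) ∧
    ∀ ε : ℝ, 0 < ε → ∀ᶠ n : ℕ in atTop, Odd n →
      (1 / 2 - ε) * ((NonSplit B n).ncard : ℝ) ≤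
        ({D ∈ NonSplit B n | ¬ HasForm n D}.ncard : ℝ) := by
  classical
  obtain ⟨T, hT, hB⟩ := nonsplit_classes B
  set W : Finset (T → Cond) := Finset.univ.filter (fun τ => (∀ π, τ π ≠ .any) ∧
    ∀ π, τ π ≠ .sq) with hW
  have hWm : ∀ n, Odd n → ∀ D, D ∈ NonSplit B n ↔ D.natDegree = n ∧ Squarefree D ∧
      (fun π : T => typ π.1 D) ∈ W := by
    intro n ho D
    rw [hB n ho, hW, Finset.mem_filter]
    refine and_congr_right fun _ => and_congr_right fun _ => ?_
    exact ⟨fun h => ⟨Finset.mem_univ _, fun π => typ_ne_any, fun π => h π.1 π.2⟩,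
      fun h π hπ => h.2.2 ⟨π, hπ⟩⟩
  constructor
  · obtain ⟨c, hc, h⟩ := (eng_holds k h6 T hT (ext T (fun _ => Cond.ex))).1
    refine ⟨c, hc, ?_⟩
    filter_upwards [h] with n hn ho
    refine hn.trans ?_
    have hfin : (NonSplit B n).Finite := by
      refine (Eng.fin_deg cnt n).subset ?_
      rintro D ⟨h1, h2, -⟩
      exact ⟨h2.ne_zero, h1⟩
    have hsub : Fam T (ext T (fun _ => Cond.ex)) n ⊆ NonSplit B n := by
      intro D hD
      rw [mem_fam_ext hT (by simp)] at hD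
      rw [hWm n ho, hW, Finset.mem_filter]
      refine ⟨hD.1, hD.2.1, Finset.mem_univ _, fun π => ?_, fun π => ?_⟩
      · rw [hD.2.2]; simp
      · rw [hD.2.2]; simp
    exact_mod_cast Set.ncard_le_ncard hsub hfin
  · intro ε hε
    exact count_union eng_holds cnt h6 hT W (fun τ hτ π => (Finset.mem_filter.1 hτ).2.1 π)
      (NonSplit B) hWm ε hε

end Pool.Agent.J6H43.SE
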