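import Pool.Agent.TH958.SJ.Fin
import Pool.Agent.Helper386.D5V.Helper386_FF_Place

/-!
The Jacobian of `y ^ ℓ = x ^ (ℓ - 1) (x + 1) (x + h ^ d)` over a field `K` with places: a lower bound
for the rank.
-/

set_option autoImplicit false
set_option linter.all false
set_option maxHeartbeats 1000000

open Polynomial IsDedekindDomain FF
open scoped nonZeroDivisors

namespace Pool.Agent.J6H43.SE

open Pool.Agent.TH958.SJ

theorem frob_id' {R : Type} [CommRing R] {p : ℕ} [Fact p.Prime] [CharP R p] {ν ℓ m : ℕ}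
    (hℓ : 1 ≤ ℓ) {z : R} (hm : p ^ ν + 1 = ℓ * m) (hz : z ^ (p ^ ν + 1) = 1) (h : R) :
    (z * h) ^ (ℓ - 1) * (z * h + 1) * (z * h + h ^ (p ^ ν + 1)) =
      (z * h * (z * h + 1) ^ m) ^ ℓ := by
  have h1 : (z * h + 1 : R) ^ (p ^ ν) = (z * h) ^ (p ^ ν) + 1 := by
    rw [add_pow_char_pow, one_pow]
  have h4 : (z * h) ^ (p ^ ν + 1) = h ^ (p ^ ν + 1) := by
    rw [mul_pow, hz, one_mul]
  have h5 : ((z * h + 1 : R) ^ m) ^ ℓ = ((z * h) ^ (p ^ ν) + 1) * (z * h + 1) := by
    rw [← pow_mul, mul_comm m ℓ, ← hm, pow_succ, h1]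
  obtain ⟨r, rfl⟩ : ∃ r, ℓ = r + 1 := ⟨ℓ - 1, by omega⟩
  have e : z * h + h ^ (p ^ ν + 1) = z * h * (1 + (z * h) ^ (p ^ ν)) := by
    rw [← h4, pow_succ]; ring
  rw [mul_pow (z * h) ((z * h + 1) ^ m) (r + 1), h5, Nat.add_sub_cancel, e,
    pow_succ (z * h) r]
  ring

section ords

variable {k K : Type} [Field k] [Field K] [Algebra k K]

theorem place_prod {ι : Type} (v : Place k K) (s : Finset ι) (f : ι → K)
    (hf : ∀ i ∈ s, f i ≠ 0) : v.ord (∏ i ∈ s, f i) = ∑ i ∈ s, v.ord (f i) := by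
  classical
  induction s using Finset.induction_on with
  | empty => simp [v.ord_one]
  | insert j s hj ih =>
    rw [Finset.prod_insert hj, Finset.sum_insert hj, v.ord_mul (hf j (Finset.mem_insert_self _ _))
      (Finset.prod_ne_zero_iff.2 fun i hi => hf i (Finset.mem_insert_of_mem hi)),
      ih fun i hi => hf i (Finset.mem_insert_of_mem hi)]

/-- at a zero of `c h + 1` the other factors are units -/
theorem ord_others {h : K} {v : Place k K} {c : k} (hc : c ≠ 0)
    (hv : 0 < v.ord (algebraMap k K c * h + 1)) : v.ord h = 0 ∧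
      ∀ b : k, b ≠ c → v.ord (algebraMap k K b * h + 1) = 0 := by
  have hne : algebraMap k K c * h + 1 ≠ 0 := by
    intro h0
    rw [h0, v.ord_zero] at hv
    exact lt_irrefl _ hv
  have hc' : algebraMap k K c ≠ 0 := (_root_.map_ne_zero _).2 hc
  have h1 : v.ord (algebraMap k K c * h) = 0 := by
    have h2 := v.ord_add_eq (f := -1) (g := algebraMap k K c * h + 1) (by norm_num) hne (by
      rw [v.ord_neg_one]; exact hv)
    have h3 : -1 + (algebraMap k K c * h + 1) = algebraMap k K c * h := by ring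
    rw [h3, v.ord_neg_one] at h2
    exact h2.2
  have hh : h ≠ 0 := by
    rintro rfl
    rw [mul_zero, zero_add, v.ord_one] at hv
    exact lt_irrefl _ hv
  refine ⟨?_, fun b hb => ?_⟩
  · rw [v.ord_mul hc' hh, v.ord_const hc, zero_add] at h1
    exact h1
  · by_cases hb0 : b = 0
    · rw [hb0, map_zero, zero_mul, zero_add, v.ord_one]
    have e : algebraMap k K b * h + 1 = algebraMap k K (1 - b / c) +
        algebraMap k K (b / c) * (algebraMap k K c * h + 1) := by
      rw [map_sub, map_one, map_div₀]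
      field_simp
      ring
    have hd : (1 - b / c : k) ≠ 0 := by
      intro h0
      apply hb
      have : b / c = 1 := by linear_combination -h0
      rw [div_eq_one_iff_eq hc] at this
      exact this
    have h5 : v.ord (algebraMap k K (1 - b / c)) = 0 := v.ord_const hd
    have hbc : algebraMap k K (b / c) ≠ 0 := (_root_.map_ne_zero _).2 (div_ne_zero hb0 hc)
    have h6 : v.ord (algebraMap k K (b / c) * (algebraMap k K c * h + 1)) =
        v.ord (algebraMap k K c * h + 1) := by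
      rw [v.ord_mul hbc hne, v.ord_const (div_ne_zero hb0 hc), zero_add]
    rw [e]
    rw [(v.ord_add_eq ((_root_.map_ne_zero _).2 hd) (mul_ne_zero hbc hne) (by
      rw [h5, h6]; exact hv)).2, h5]

end ords

section pts

variable {k K : Type} [Field k] [Field K] [Algebra k K]

variable {L F B : Type} [Field L] [Field F] [CommRing B]
    [Algebra K[X] L] [Algebra L F] [Algebra K[X] F]
    [Algebra K[X] B] [Algebra B F]
    [IsFractionRing K[X] L] [IsScalarTower K[X] L F]
    [IsScalarTower K[X] B F] [IsIntegralClosure B K[X] F]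
    [FiniteDimensional L F] [IsDedekindDomain B]
    [IsGalois L F] [Module.Finite K[X] B] [Module.IsTorsionFree K[X] B]

theorem rank_gen {p : ℕ} [hpp : Fact p.Prime] [CharP K p] {ν ℓ : ℕ} (hd : ℓ ∣ p ^ ν + 1)
    {ι : Type} [Fintype ι] (z : ι → k) (hz : ∀ i, z i ^ (p ^ ν + 1) = 1)
    (hinj : Function.Injective z) (h : K) (h0 : h ≠ 0) (ht1 : h ^ (p ^ ν + 1) ≠ 1)
    (v : ι → Place k K) (hv : ∀ i, 0 < (v i).ord (algebraMap k K (z i) * h + 1))
    (hvl : ∀ i, ¬ (ℓ : ℤ) ∣ (v i).ord (algebraMap k K (z i) * h + 1))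
    (D : Cov K L F B ℓ (fp ℓ (h ^ (p ^ ν + 1)))) :
    ∃ Q : Fin ((ℓ - 1) * (Fintype.card ι - 2)) → Additive (ClassGroup B),
      LinearIndependent ℤ Q := by
  classical
  set d := p ^ ν + 1 with hdd
  obtain ⟨m, hm⟩ := hd
  have hℓ := D.hp
  have hℓ1 : 1 ≤ ℓ := hℓ.pos
  set am := algebraMap k K with ham
  have hdpos : 0 < d := by omega
  have hz0 : ∀ i, z i ≠ 0 := by
    intro i hi
    have := hz i
    rw [hi, zero_pow hdpos.ne'] at this
    exact zero_ne_one this
  set t : K := h ^ d with ht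
  have ht0 : t ≠ 0 := pow_ne_zero _ h0
  have hne1 : ∀ i, am (z i) * h + 1 ≠ 0 := by
    intro i hi
    have := hv i
    rw [hi, (v i).ord_zero] at this
    exact lt_irrefl _ this
  have hne2 : ∀ i, am (z i) * h ≠ 0 := fun i => mul_ne_zero ((_root_.map_ne_zero _).2 (hz0 i)) h0
  -- the points
  let β : ι → K := fun i => am (z i) * h
  let η : ι → K := fun i => am (z i) * h * (am (z i) * h + 1) ^ m
  have hη : ∀ i, η i ≠ 0 := fun i => mul_ne_zero (hne2 i) (pow_ne_zero _ (hne1 i))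
  have hzK : ∀ i, am (z i) ^ (p ^ ν + 1) = 1 := fun i => by
    rw [← map_pow, hz i, map_one]
  have he : ∀ i, (fp ℓ t).eval (β i) = η i ^ ℓ := fun i => by
    have h1 := frob_id' (p := p) (ν := ν) (ℓ := ℓ) (m := m) hℓ1 hm (hzK i) h
    have h2 : (fp ℓ t).eval (β i) = β i ^ (ℓ - 1) * (β i + 1) * (β i + t) := by
      unfold fp; simp
    rw [h2]
    exact h1
  have hI : ∀ i, D.QI (β i) (η i) 0 ∈ (Ideal B)⁰ := fun i => by
    rw [mem_nonZeroDivisors_iff_ne_zero, Ne, Ideal.zero_eq_bot]; exact D.QI_ne _ _ _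
  let c : ι → ClassGroup B := fun i => ClassGroup.mk0 ⟨_, hI i⟩
  have hδ : ∀ i, Gm ℓ t (c i) ((1 + β i) / (t + β i)) := fun i =>
    Gm.point D ht0 (hη i) (he i) ⟨_, hI i⟩ rfl
  have hkill : ∀ i, aeval (sg D) (cyclotomic ℓ ℤ) (Additive.ofMul (c i)) = 0 := fun i =>
    norm_kills D (hη i) (he i) ⟨_, hI i⟩ rfl
  obtain ⟨hf1, hf2⟩ := D.card_fixed ht1
  -- the order of the descent values
  have ht2 : ∀ i, t + β i = (am (z i) * h) * (am (z i) * h + 1) ^ (p ^ ν) := by
    intro i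
    have h1 : (am (z i) * h + 1 : K) ^ (p ^ ν) = (am (z i) * h) ^ (p ^ ν) + 1 := by
      rw [add_pow_char_pow, one_pow]
    have h4 : (am (z i) * h) ^ (p ^ ν + 1) = h ^ (p ^ ν + 1) := by
      rw [mul_pow, hzK i, one_mul]
    show h ^ (p ^ ν + 1) + am (z i) * h = _
    rw [h1, ← h4, pow_succ]
    ring
  have hδ2 : ∀ i, (1 + β i) / (t + β i) =
      (am (z i) * h + 1) ^ (1 - (p ^ ν : ℤ)) * (am (z i) * h) ^ (-1 : ℤ) := by
    intro i
    rw [ht2 i, zpow_sub₀ (hne1 i), zpow_one, zpow_neg_one]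
    have e1 : 1 + β i = am (z i) * h + 1 := by
      show 1 + am (z i) * h = _
      ring
    have e2 : (am (z i) * h + 1) ^ (p ^ ν : ℤ) = (am (z i) * h + 1) ^ (p ^ ν) := by
      rw [← zpow_natCast]; push_cast; rfl
    rw [e1, e2]
    have := hne1 i
    have := hne2 i
    field_simp
  have hne3 : ∀ i, (1 + β i) / (t + β i) ≠ 0 := fun i => by
    rw [hδ2]; exact mul_ne_zero (zpow_ne_zero _ (hne1 i)) (zpow_ne_zero _ (hne2 i))
  have hord : ∀ i j, (v j).ord ((1 + β i) / (t + β i)) =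
      if j = i then (1 - (p ^ ν : ℤ)) * (v i).ord (am (z i) * h + 1) else 0 := by
    intro i j
    obtain ⟨o1, o2⟩ := ord_others (hz0 j) (hv j)
    have hzi : am (z i) ≠ 0 := (_root_.map_ne_zero _).2 (hz0 i)
    rw [hδ2, (v j).ord_mul (zpow_ne_zero _ (hne1 i)) (zpow_ne_zero _ (hne2 i)), (v j).ord_zpow,
      (v j).ord_zpow, (v j).ord_mul hzi h0, (v j).ord_const (hz0 i), o1, add_zero, mul_zero,
      add_zero]
    split_ifs with hji
    · rw [hji]
    · rw [o2 (z i) (fun h => hji (hinj h.symm)), mul_zero]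
  have hrel : ∀ n : ι → ℤ[X], ∑ i, aeval (sg D) (n i) (Additive.ofMul (c i)) = 0 →
      ∀ i, (ℓ : ℤ) ∣ (n i).eval 1 := by
    intro n hn w
    obtain ⟨κ, hκ, hprod⟩ := relation D ht0 ht1 c (fun i => (1 + β i) / (t + β i)) hδ n hn
    have h1 := congrArg (v w).ord hprod
    rw [place_prod _ _ _ (fun i _ => zpow_ne_zero _ (hne3 i)), (v w).ord_pow] at h1
    simp only [Place.ord_zpow, hord] at h1
    rw [Finset.sum_eq_single w (fun i _ hi => by rw [if_neg (Ne.symm hi), mul_zero])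
      (fun hw => absurd (Finset.mem_univ _) hw), if_pos rfl] at h1
    have h2 : (ℓ : ℤ) ∣ ((n w).eval 1 * (v w).ord (am (z w) * h + 1)) * 2 := by
      have h3 : ((p ^ ν : ℕ) : ℤ) + 1 = ℓ * m := by exact_mod_cast hm
      push_cast at h3
      refine ⟨(n w).eval 1 * (v w).ord (am (z w) * h + 1) * m + (v w).ord κ, ?_⟩
      linear_combination h1 + (n w).eval 1 * (v w).ord (am (z w) * h + 1) * h3
    have hℓ' : Prime (ℓ : ℤ) := Nat.prime_iff_prime_int.1 hℓ
    rcases hℓ'.dvd_or_dvd h2 with h3 | h3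
    · rcases hℓ'.dvd_or_dvd h3 with h4 | h4
      · exact h4
      · exact absurd h4 (hvl w)
    · exfalso
      have h4 : ℓ ∣ 2 := by exact_mod_cast h3
      have h5 := Nat.le_of_dvd (by norm_num) h4
      have h6 := hℓ.two_le
      exact D.hodd (by omega)
  have hfin : Finite {x : Additive (ClassGroup B) // sg D x = x} := hf1
  have hcd : Nat.card {x : Additive (ClassGroup B) // sg D x = x} ≤ ℓ ^ 2 := hf2
  exact Lin.exists_independent (sg D) (fun i : ι => Additive.ofMul (c i)) hkill hℓ D.hodd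
    hfin hcd hrel

end pts

section fin

variable {k K : Type} [Field k] [Field K] [Algebra k K]

theorem jac_rank {ℓ p ν : ℕ} (hℓ : ℓ.Prime) (hodd : ℓ ≠ 2) (hp : p.Prime) (hν : 1 ≤ ν)
    (hd : ℓ ∣ p ^ ν + 1) [CharP k p] {ζ : k} (hζ : IsPrimitiveRoot ζ ℓ)
    {ι : Type} [Fintype ι] (z : ι → k) (hz : ∀ i, z i ^ (p ^ ν + 1) = 1)
    (hinj : Function.Injective z) (h : K) (h0 : h ≠ 0) (ht1 : h ^ (p ^ ν + 1) ≠ 1)
    (v : ι → Place k K) (hv : ∀ i, 0 < (v i).ord (algebraMap k K (z i) * h + 1))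
    (hvl : ∀ i, ¬ (ℓ : ℤ) ∣ (v i).ord (algebraMap k K (z i) * h + 1)) :
    JacRankGE K ℓ (h ^ (p ^ ν + 1)) ((ℓ - 1) * (Fintype.card ι - 2)) := by
  classical
  haveI : Fact p.Prime := ⟨hp⟩
  haveI : CharP K p := charP_of_injective_algebraMap (algebraMap k K).injective p
  set t : K := h ^ (p ^ ν + 1) with ht
  have hinj' : Function.Injective (algebraMap k K) := (algebraMap k K).injective
  have hK : (ℓ : K) ≠ 0 := by
    rw [Ne, CharP.cast_eq_zero_iff K p]
    intro h2
    have h3 : p = ℓ := (Nat.prime_dvd_prime_iff_eq hp hℓ).1 h2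
    have h4 : p ∣ p ^ ν + 1 := h3 ▸ hd
    have h5 : p ∣ p ^ ν := dvd_pow_self p (by omega)
    have h6 := (Nat.dvd_add_right h5).1 h4
    exact hp.one_lt.ne' (Nat.dvd_one.1 h6)
  have hζ' : IsPrimitiveRoot (algebraMap k K ζ) ℓ := hζ.map_of_injective hinj'
  haveI isp : IsSplittingField (RatFunc K) (FunField K ℓ t)
      (X ^ ℓ - C (algebraMap K[X] (RatFunc K) (fp ℓ t))) :=
    IsSplittingField.splittingField (kummerPoly K ℓ t)
  obtain ⟨i1, i2, ⟨D⟩⟩ := exists_cov (K := K) (L := RatFunc K)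
    (F := FunField K ℓ t) hℓ hodd hK hζ' ht1
  haveI := i1
  haveI := i2
  haveI : IsIntegralClosure (coordRing K ℓ t) K[X] (FunField K ℓ t) :=
    integralClosure.isIntegralClosure K[X] (FunField K ℓ t)
  haveI : IsDedekindDomain (coordRing K ℓ t) :=
    IsIntegralClosure.isDedekindDomain K[X] (RatFunc K) (FunField K ℓ t) _
  haveI : Module.Finite K[X] (coordRing K ℓ t) :=
    IsIntegralClosure.finite K[X] (RatFunc K) (FunField K ℓ t) _
  haveI : Module.IsTorsionFree K[X] (FunField K ℓ t) := by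
    rw [Module.isTorsionFree_iff_algebraMap_injective,
      IsScalarTower.algebraMap_eq K[X] (RatFunc K) (FunField K ℓ t)]
    exact (algebraMap (RatFunc K) (FunField K ℓ t)).injective.comp
      (IsFractionRing.injective K[X] (RatFunc K))
  haveI : Module.IsTorsionFree K[X] (coordRing K ℓ t) :=
    IsIntegralClosure.isTorsionFree K[X] (FunField K ℓ t)
  have D' : Cov K (RatFunc K) (FunField K ℓ t) (coordRing K ℓ t) ℓ (fp ℓ t) := D
  exact rank_gen hd z hz hinj h h0 ht1 v hv hvl D'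

end fin

end Pool.Agent.J6H43.SE
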