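import Pool.Agent.J6H43.SE.Leg
import Pool.Agent.J6H43.SE.Rk
import Pool.Agent.J6H43.SE.Non

/-!
The curves `y ^ l = x ^ (l - 1) (x + 1) (x + h ^ d)` over quadratic extensions of `k(t)`.
-/

set_option autoImplicit false
set_option linter.all false
set_option maxHeartbeats 4000000

open FF Module Polynomial Filter

namespace Pool.Agent.J6H43.SE

open Pool.Agent.W343.BSD Pool.Agent.W309.RF Pool.Agent.H525R3.FFp Pool.Agent.TH639.B3
open Pool.Agent.N874.DH

section poly

variable {k : Type} [Field k] [Finite k]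

/-- the place of an irreducible polynomial -/
theorem poly_place {P : k[X]} (hP : Irreducible P) : ∃ v0 : Place k (RatFunc k),
    (∀ v : Place k (RatFunc k), 0 < v.ord (A P) ↔ v = v0) ∧ v0.ord (A P) = 1 ∧
      v0.deg = P.natDegree ∧
      ∀ D : k[X], Squarefree D → (LocSq v0 (A D) ↔ SplitsIn P D) := by
  have hPd : 0 < P.natDegree := hP.natDegree_pos
  obtain ⟨v, hv1, hv2⟩ := exists_fin hPd
  obtain ⟨π, hm, hirr, hord, -, hdvd, hdeg⟩ := fin_exists hv1
  obtain ⟨π', hm', hirr', hdvd', -, hsq⟩ := place_data hv1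
  have h1 := (hdvd _ hP.ne_zero).1 hv2
  have h1' := (hdvd' _ hP.ne_zero).1 hv2
  have ha : Associated π P := hirr.associated_of_dvd hP h1
  have ha' : Associated π' P := hirr'.associated_of_dvd hP h1'
  obtain ⟨c, hc⟩ := h1
  have hcu : IsUnit c := by
    rcases hP.isUnit_or_isUnit hc with h | h
    · exact absurd h hirr.not_isUnit
    · exact h
  obtain ⟨b, hb, rfl⟩ := Polynomial.isUnit_iff.1 hcu
  have hb0 : b ≠ 0 := hb.ne_zero
  have hordP : v.ord (A P) = 1 := by
    have e1 : A P = A π * algebraMap k (RatFunc k) b := by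
      rw [hc, ← A_C]
      show algebraMap k[X] (RatFunc k) _ = _
      rw [map_mul]
    rw [e1, v.ord_mul (A_ne hirr.ne_zero) ((_root_.map_ne_zero _).2 hb0), v.ord_const hb0, hord,
      add_zero]
  refine ⟨v, fun v' => ⟨fun h2 => ?_, ?_⟩, hordP, ?_, ?_⟩
  · have h3 : 0 ≤ v'.ord RatFunc.X := by
      by_contra h4
      push Not at h4
      rw [inf_ord' h4 hP.ne_zero] at h2
      omega
    exact fin_unique h3 hv1 hP h2 hv2
  · rintro rfl
    exact hv2
  · rw [hdeg]
    exact natDegree_eq_of_degree_eq (degree_eq_degree_of_associated ha)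
  · intro D hD
    rw [hsq D hD]
    unfold SplitsIn
    rw [ha'.dvd_iff_dvd_left]
    simp only [ha'.dvd_iff_dvd_left]

/-- The squarefree polynomials `D` of degree `n` for which the irreducible polynomials in `Q` do
not split in `k(t)(√D)`. -/
def NonSplitPoly (Q : Finset k[X]) (n : ℕ) : Set k[X] :=
  {D | D.natDegree = n ∧ Squarefree D ∧ ∀ P ∈ Q, ¬ SplitsIn P D}

theorem nonsplitPoly_count (h6 : (6 : k) ≠ 0) {Q : Finset k[X]} (hQ : ∀ P ∈ Q, Irreducible P) :
    (∃ c : ℝ, 0 < c ∧ ∀ᶠ n : ℕ in atTop, Odd n →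
      c * (Nat.card k : ℝ) ^ n ≤ ((NonSplitPoly Q n).ncard : ℝ)) ∧
    ∀ ε : ℝ, 0 < ε → ∀ᶠ n : ℕ in atTop, Odd n →
      (1 / 2 - ε) * ((NonSplitPoly Q n).ncard : ℝ) ≤
        ({D ∈ NonSplitPoly Q n | ¬ HasForm n D}.ncard : ℝ) := by
  classical
  have hch : ∀ P : k[X], ∃ v0 : Place k (RatFunc k), Irreducible P →
      ∀ D : k[X], Squarefree D → (LocSq v0 (A D) ↔ SplitsIn P D) := by
    intro P
    by_cases hP : Irreducible P
    · obtain ⟨v0, -, -, -, h⟩ := poly_place hP
      exact ⟨v0, fun _ => h⟩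
    · exact ⟨infty k, fun h => absurd h hP⟩
  choose w hw using hch
  have e : ∀ n, NonSplitPoly Q n = NonSplit (Q.image w) n := by
    intro n
    ext D
    unfold NonSplitPoly NonSplit
    rw [Set.mem_setOf_eq, Set.mem_setOf_eq]
    refine and_congr_right fun _ => and_congr_right fun hs => ?_
    rw [Finset.forall_mem_image]
    exact forall₂_congr fun P hP => not_congr (hw P (hQ P hP) D hs).symm
  simp only [e]
  exact nonsplit_count h6 (Q.image w)

end poly

section ovr

variable {k : Type} [Field k] [Finite k] {M : Type} [Field M] [Algebra k M]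
  [Algebra (RatFunc k) M] [IsScalarTower k (RatFunc k) M] [FF.IsFF k M]

theorem quad_setup (h6 : (6 : k) ≠ 0) {D : k[X]} (ho : Odd D.natDegree) {θ : M}
    (hθ : θ ^ 2 = algebraMap (RatFunc k) M (A D))
    (htop : IntermediateField.adjoin (RatFunc k) {θ} = ⊤) :
    (∀ s : RatFunc k, A D ≠ s ^ 2) ∧ FiniteDimensional (RatFunc k) M ∧ IsGalois (RatFunc k) M ∧
      finrank (RatFunc k) M = 2 := by
  have h2 : (2 : k) ≠ 0 := by
    intro h; apply h6
    have : (6 : k) = 2 * 3 := by norm_num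
    rw [this, h, zero_mul]
  have h2K : (2 : RatFunc k) ≠ 0 := by
    have : (2 : RatFunc k) = algebraMap k (RatFunc k) 2 := by rw [map_ofNat]
    rw [this]
    exact (_root_.map_ne_zero _).2 h2
  have hns : ∀ s : RatFunc k, A D ≠ s ^ 2 := not_sq k ho
  exact ⟨hns, quad_data h2K hθ hns htop⟩

theorem over_zero (h6 : (6 : k) ≠ 0) {l : ℕ} (hl : l.Prime) (hodd : l ≠ 2) {D : k[X]}
    (hs : Squarefree D) (ho : Odd D.natDegree) {θ : M}
    (hθ : θ ^ 2 = algebraMap (RatFunc k) M (A D))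
    (htop : IntermediateField.adjoin (RatFunc k) {θ} = ⊤) {h : k[X]} {c : k}
    (hP : Irreducible (h - C c)) (hd : ¬ l ∣ (h - C c).natDegree)
    (hn : ¬ SplitsIn (h - C c) D) :
    zeroSum l k (algebraMap (RatFunc k) M (A h) - algebraMap k M c) = 1 ∧
      ∃ w : Place k M, 0 < w.ord (algebraMap (RatFunc k) M (A h) - algebraMap k M c) ∧
        ¬ (l : ℤ) ∣ w.ord (algebraMap (RatFunc k) M (A h) - algebraMap k M c) := by
  obtain ⟨hns, hfd, hgal, hfr⟩ := quad_setup h6 ho hθ htop
  obtain ⟨v0, hv0, hord, hdeg, hsp⟩ := poly_place hP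
  have e1 : algebraMap (RatFunc k) M (A h) - algebraMap k M c =
      algebraMap (RatFunc k) M (A (h - C c)) := by
    rw [A_map_sub, map_sub, ← IsScalarTower.algebraMap_apply k (RatFunc k) M]
  rw [e1]
  constructor
  · rw [zeroSum_quad h6 hfr (A_ne hs.ne_zero) hθ hns hl hodd hv0 (by rw [hdeg]; exact hd)]
    rw [if_neg (fun h => hn ((hsp D hs).1 h))]
  · obtain ⟨S, e, f, G⟩ := exists_galoisFiber (L := M) v0
    obtain ⟨w, hw⟩ := G.nonempty
    have hov := G.isOver w hw
    refine ⟨w, ?_, ?_⟩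
    · rw [hov.2, hord, mul_one]
      exact_mod_cast hov.1
    · rw [hov.2, hord, mul_one]
      intro h1
      have h2 : l ∣ e := by exact_mod_cast h1
      have h3 : e ∣ 2 := ⟨S.card * f, by rw [← hfr, ← G.mul]; ring⟩
      exact hodd ((Nat.prime_dvd_prime_iff_eq hl Nat.prime_two).1 (h2.trans h3))

theorem over_pole (h6 : (6 : k) ≠ 0) {l : ℕ} (hl : l.Prime) (hodd : l ≠ 2) {D : k[X]}
    (hs : Squarefree D) (ho : Odd D.natDegree) {θ : M}
    (hθ : θ ^ 2 = algebraMap (RatFunc k) M (A D))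
    (htop : IntermediateField.adjoin (RatFunc k) {θ} = ⊤) {h : k[X]} (hh : 0 < h.natDegree) :
    poleSum l k (algebraMap (RatFunc k) M (A h)) = 1 := by
  obtain ⟨hns, hfd, hgal, hfr⟩ := quad_setup h6 ho hθ htop
  have hh0 : h ≠ 0 := by
    rintro rfl
    simp at hh
  have hpole : ∀ v : Place k (RatFunc k), ¬ v.Reg (A h) ↔ v = infty k := by
    intro v
    constructor
    · intro hv
      by_contra hne
      exact hv (fin_reg (fin_of_ne hne) h)
    · rintro rfl hr
      have h1 := ((infty k).reg_iff (A_ne hh0)).1 hr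
      rw [inf_ord' infty_X hh0] at h1
      omega
  rw [poleSum_quad h6 hfr (A_ne hs.ne_zero) hθ hns hl hodd hpole (by
      rw [inf_deg infty_X]
      exact fun h1 => hl.one_lt.ne' (Nat.dvd_one.1 h1))]
  rw [if_neg]
  intro h1
  apply even_of_locSq (A_ne hs.ne_zero) h1
  rw [inf_ord' infty_X hs.ne_zero]
  exact ((Int.odd_coe_nat _).2 ho).neg

theorem over_ne {h : k[X]} (hh : 0 < h.natDegree) (x : k) :
    algebraMap (RatFunc k) M (A h) ≠ algebraMap k M x := by
  intro hx
  rw [IsScalarTower.algebraMap_apply k (RatFunc k) M] at hx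
  have h1 := (algebraMap (RatFunc k) M).injective hx
  rw [← A_C] at h1
  have h2 : h = C x := RatFunc.algebraMap_injective k h1
  rw [h2, natDegree_C] at hh
  exact lt_irrefl _ hh

end ovr

end Pool.Agent.J6H43.SE
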