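import Pool.Agent.J6H43.SE.Loc

/-!
The Euler product over the points of the line for the curve `y ^ N = ∏ (x - b i) ^ e i`, modulo `l`.
-/

set_option autoImplicit false
set_option linter.all false
set_option maxHeartbeats 4000000

open PowerSeries

namespace Pool.Agent.J6H43.SE

open Pool.Agent.W343.BSD Pool.Agent.W313.Hyp
open Pool.Agent.W309.T3 (rescale_eulerProd)

section point

variable {F : Type} [Field F]

noncomputable instance ptAlg (Q : ClosedPt F) : Algebra F (PtField Q) :=
  inferInstanceAs (Algebra F (AdjoinRoot Q.1))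

theorem value_zero (Q : ClosedPt F) (h : Polynomial F) : value Q h = 0 ↔ Q.1 ∣ h :=
  AdjoinRoot.mk_eq_zero

theorem pt_finite_mod (Q : ClosedPt F) : Module.Finite F (PtField Q) :=
  Q.2.1.finite_adjoinRoot

instance pt_finite [Finite F] (Q : ClosedPt F) : Finite (PtField Q) := by
  have := pt_finite_mod Q
  exact Module.finite_of_finite F

theorem pt_dvd [Finite F] {l : ℕ} (hq : l ∣ Nat.card F - 1) (Q : ClosedPt F) :
    l ∣ Nat.card (PtField Q) - 1 := by
  have h0 : Module.Finite F (AdjoinRoot Q.1) := Q.2.1.finite_adjoinRoot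
  have h : Nat.card (AdjoinRoot Q.1) = Nat.card F ^ Module.finrank F (AdjoinRoot Q.1) :=
    Module.natCard_eq_pow_finrank (K := F) (V := AdjoinRoot Q.1)
  show l ∣ Nat.card (AdjoinRoot Q.1) - 1
  rw [h]
  exact hq.trans (Nat.sub_one_dvd_pow_sub_one _ _)

theorem ne_zero_of_dvd {E : Type} [Field E] [Finite E] {l : ℕ} (hl : l.Prime)
    (hq : l ∣ Nat.card E - 1) : ((l : ℕ) : E) ≠ 0 := by
  intro h0
  haveI := Fintype.ofFinite E
  have h1 : ((Nat.card E : ℕ) : E) = 0 := by
    rw [Nat.card_eq_fintype_card]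
    exact FiniteField.cast_card_eq_zero E
  obtain ⟨t, ht⟩ := hq
  have h2 : 1 ≤ Nat.card E := Nat.card_pos
  have h3 : Nat.card E = l * t + 1 := by omega
  rw [h3] at h1
  push_cast at h1
  rw [h0, zero_mul, zero_add] at h1
  exact one_ne_zero h1

variable [Finite F]

theorem pointFactor_eq {N : ℕ} (hN : 0 < N) (h : Polynomial F) (c : ℤ) (n : ℕ) (Q : ClosedPt F) :
    pointFactor N h c n Q =
      (∏ R ∈ facs (Polynomial.X ^ N - Polynomial.C (value Q h) : Polynomial (PtField Q)),
        (1 - PowerSeries.C (c ^ R.1.natDegree) * PowerSeries.X ^ (n * R.1.natDegree))) *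
          geom c n := by
  classical
  have h0 : (Polynomial.X ^ N - Polynomial.C (value Q h) : Polynomial (PtField Q)) ≠ 0 :=
    Polynomial.X_pow_sub_C_ne_zero hN _
  unfold pointFactor
  congr 1
  have h3 : (fun R : ClosedPt (PtField Q) =>
      ∏ᶠ (_ : R.1 ∣ Polynomial.X ^ N - Polynomial.C (value Q h)),
        (1 - PowerSeries.C (c ^ R.1.natDegree) * PowerSeries.X ^ (n * R.1.natDegree) :
          PowerSeries ℤ)) =
      fun R : MI (PtField Q) =>
      ∏ᶠ (_ : R ∈ facs (Polynomial.X ^ N - Polynomial.C (value Q h))),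
        (1 - PowerSeries.C (c ^ R.1.natDegree) * PowerSeries.X ^ (n * R.1.natDegree)) := by
    funext R
    rw [propext (mem_facs h0 R)]
  rw [h3]
  exact finprod_mem_coe_finset (fun R : MI (PtField Q) =>
    (1 - PowerSeries.C (c ^ R.1.natDegree) * PowerSeries.X ^ (n * R.1.natDegree) :
      PowerSeries ℤ)) _

theorem pointFactor_dvd {N : ℕ} (hN : 0 < N) (h : Polynomial F) (c : ℤ) {n : ℕ} (hn : 0 < n)
    (Q : ClosedPt F) : (X : PowerSeries ℤ) ^ n ∣ pointFactor N h c n Q - 1 := by
  rw [pointFactor_eq hN]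
  apply one_mod_mul _ (geom_mod c hn)
  have h1 := prod_congr_mod (facs (Polynomial.X ^ N - Polynomial.C (value Q h) :
    Polynomial (PtField Q))) (fun R => (1 - PowerSeries.C (c ^ R.1.natDegree) *
      PowerSeries.X ^ (n * R.1.natDegree) : PowerSeries ℤ)) (fun _ => 1) n (fun R _ =>
        (pow_dvd_pow _ (Nat.le_mul_of_pos_right _ (MI.deg_pos R))).trans (dvd_term _ _))
  rwa [Finset.prod_const_one] at h1

theorem red_term (l : ℕ) (c : ℤ) (n : ℕ) :
    redL l (1 - PowerSeries.C c * PowerSeries.X ^ n) =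
      1 - PowerSeries.C (c : ZMod l) * PowerSeries.X ^ n := by
  rw [map_sub, map_one, map_mul, PowerSeries.map_C, map_pow, PowerSeries.map_X, eq_intCast]

/-- the factor of a point modulo `l` -/
theorem point_mod {l : ℕ} [hl : Fact l.Prime] (hq : l ∣ Nat.card F - 1) {s : ℕ}
    (h : Polynomial F) (c : ℤ) {n : ℕ} (hn : 0 < n) (Q : ClosedPt F) [Decidable (Q.1 ∣ h)] :
    redL l (pointFactor (l ^ s) h c n Q) =
      if Q.1 ∣ h then 1 else (1 - PowerSeries.C (c : ZMod l) * PowerSeries.X ^ n) ^ (l ^ s - 1) := by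
  classical
  have hN : 0 < l ^ s := pow_pos hl.out.pos _
  rw [pointFactor_eq hN, map_mul, map_prod]
  have hg : (1 - PowerSeries.C (c : ZMod l) * PowerSeries.X ^ n) * redL l (geom c n) = 1 := by
    have := congrArg (redL l) (mul_geom c hn)
    rwa [map_mul, red_term, map_one] at this
  split_ifs with hQ
  · have hv : value Q h = 0 := (value_zero Q h).2 hQ
    rw [hv, map_zero, sub_zero]
    have hX : facs (Polynomial.X ^ l ^ s : Polynomial (PtField Q)) =
        {⟨Polynomial.X, Polynomial.monic_X, Polynomial.irreducible_X⟩} := by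
      ext R
      rw [mem_facs (pow_ne_zero _ Polynomial.X_ne_zero), Finset.mem_singleton]
      constructor
      · intro hR
        have h1 := R.2.2.prime.dvd_of_dvd_pow hR
        exact eq_of_dvd_MI (Q := ⟨Polynomial.X, Polynomial.monic_X, Polynomial.irreducible_X⟩) h1
      · rintro rfl
        exact dvd_pow_self _ hN.ne'
    rw [hX, Finset.prod_singleton, Polynomial.natDegree_X, pow_one, mul_one, red_term]
    exact hg
  · have hv : value Q h ≠ 0 := fun h0 => hQ ((value_zero Q h).1 h0)
    have hqQ := pt_dvd hq Q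
    have h1 := fib_mod (s := s) hqQ (ne_zero_of_dvd hl.out hqQ) hv (c : ZMod l) n
    have h2 : ∀ R : MI (PtField Q), redL l (1 - PowerSeries.C (c ^ R.1.natDegree) *
        PowerSeries.X ^ (n * R.1.natDegree)) = (1 - PowerSeries.C ((c : ZMod l) ^ R.1.natDegree) *
        PowerSeries.X ^ (n * R.1.natDegree)) := by
      intro R
      rw [red_term, Int.cast_pow]
    rw [Finset.prod_congr rfl (fun R _ => h2 R), h1]
    obtain ⟨j, hj⟩ : ∃ j, l ^ s = j + 1 := ⟨l ^ s - 1, by omega⟩
    rw [hj, Nat.add_sub_cancel, pow_succ, mul_assoc, hg, mul_one]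

end point

section line

variable {F : Type} [Field F] [Finite F] {l : ℕ} [hl : Fact l.Prime]

/-- all the points of the line -/
theorem line_all (hq : l ∣ Nat.card F - 1) (c : ZMod l) {d : ℕ} (hd : 0 < d) :
    eulerProd (fun P : MI F => d * P.1.natDegree)
      (fun P => (1 - PowerSeries.C (c ^ P.1.natDegree) * PowerSeries.X ^ (d * P.1.natDegree) :
        PowerSeries (ZMod l))) = 1 - PowerSeries.C c * PowerSeries.X ^ d := by
  have h1 := euler_irr (F := F) (ZMod l)
  have h2 := congrArg (rescale c) h1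
  rw [rescale_eulerProd (fun n => finite_deg_le (F := F) n)] at h2
  have hcard : ((Nat.card F : ℕ) : ZMod l) = 1 := by
    obtain ⟨t, ht⟩ := hq
    have h3 : 1 ≤ Nat.card F := Nat.card_pos
    have h4 : Nat.card F = l * t + 1 := by omega
    rw [h4]
    push_cast
    rw [ZMod.natCast_self, zero_mul, zero_add]
  have e1 : (fun P : MI F => rescale c (1 - PowerSeries.X ^ P.1.natDegree)) = fun P : MI F =>
      (1 - PowerSeries.C (c ^ P.1.natDegree) * PowerSeries.X ^ P.1.natDegree :
        PowerSeries (ZMod l)) := by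
    funext P
    rw [map_sub, map_one, map_pow, PowerSeries.rescale_X, mul_pow, ← map_pow]
  have e2 : rescale c (1 - PowerSeries.C ((Nat.card F : ℕ) : ZMod l) * PowerSeries.X) =
      1 - PowerSeries.C c * PowerSeries.X := by
    rw [hcard, map_one, one_mul, map_sub, map_one, PowerSeries.rescale_X]
  rw [e1, e2] at h2
  have h7 := expand_eulerProd (R := ZMod l) (d := fun P : MI F => P.1.natDegree)
    (fun n => finite_deg_le (F := F) n) hd.ne'
    (f := fun P : MI F => (1 - PowerSeries.C (c ^ P.1.natDegree) *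
      PowerSeries.X ^ P.1.natDegree : PowerSeries (ZMod l))) (fun P => dvd_term _ _)
  rw [h2] at h7
  have e3 : (fun P : MI F => expand d hd.ne' (1 - PowerSeries.C (c ^ P.1.natDegree) *
      PowerSeries.X ^ P.1.natDegree : PowerSeries (ZMod l))) = fun P : MI F =>
      (1 - PowerSeries.C (c ^ P.1.natDegree) * PowerSeries.X ^ (d * P.1.natDegree)) := by
    funext P
    rw [map_sub, map_one, map_mul, expand_C, map_pow (expand d hd.ne'), expand_X, ← pow_mul]
  rw [e3] at h7
  rw [← h7, map_sub, map_one, map_mul, expand_C, expand_X]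

/-- the polynomial `∏ (x - b i) ^ e i` -/
noncomputable def splitPoly {F : Type} [Field F] {n : ℕ} (b : Fin n → F) (e : Fin n → ℕ) :
    Polynomial F := ∏ i, (Polynomial.X - Polynomial.C (b i)) ^ e i

theorem splitPoly_ne {n : ℕ} (b : Fin n → F) (e : Fin n → ℕ) : splitPoly b e ≠ 0 :=
  Finset.prod_ne_zero_iff.2 fun i _ => pow_ne_zero _ (Polynomial.X_sub_C_ne_zero _)

open Classical in
theorem facs_split {n : ℕ} (b : Fin n → F) {e : Fin n → ℕ} (he : ∀ i, e i ≠ 0) :
    facs (splitPoly b e) = (Finset.univ.image b).image (fun x : F =>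
      (⟨Polynomial.X - Polynomial.C x, Polynomial.monic_X_sub_C x,
        Polynomial.irreducible_X_sub_C x⟩ : MI F)) := by
  ext P
  rw [mem_facs (splitPoly_ne b e), Finset.mem_image]
  constructor
  · intro hP
    obtain ⟨i, -, hi⟩ := (P.2.2.prime.dvd_finset_prod_iff _).1 hP
    have h1 := P.2.2.prime.dvd_of_dvd_pow hi
    exact ⟨b i, Finset.mem_image_of_mem _ (Finset.mem_univ _), (eq_of_dvd_MI
      (Q := ⟨Polynomial.X - Polynomial.C (b i), Polynomial.monic_X_sub_C _,
        Polynomial.irreducible_X_sub_C _⟩) h1).symm⟩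
  · rintro ⟨x, hx, rfl⟩
    obtain ⟨i, -, rfl⟩ := Finset.mem_image.1 hx
    exact (dvd_pow_self _ (he i)).trans (Finset.dvd_prod_of_mem _ (Finset.mem_univ i))

open Classical in
/-- the number of the different `b i` -/
noncomputable def numPts {F : Type} {n : ℕ} (b : Fin n → F) : ℕ := (Finset.univ.image b).card

theorem numPts_pos {F : Type} {n : ℕ} (hn : 0 < n) (b : Fin n → F) : 0 < numPts b := by
  classical
  unfold numPts
  rw [Finset.card_pos]
  exact ⟨b ⟨0, hn⟩, Finset.mem_image_of_mem _ (Finset.mem_univ _)⟩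

theorem numPts_le {F : Type} {n : ℕ} (b : Fin n → F) : numPts b ≤ n := by
  classical
  unfold numPts
  refine Finset.card_image_le.trans ?_
  simp

theorem numPts_inj {F : Type} {n : ℕ} {b : Fin n → F} (hb : Function.Injective b) :
    numPts b = n := by
  classical
  unfold numPts
  rw [Finset.card_image_of_injective _ hb]
  simp

/-- The Euler product over the points of the line. -/
noncomputable def lineE (N : ℕ) (h : Polynomial F) (c : ℤ) (d : ℕ) : PowerSeries ℤ :=
  eulerProd (fun P : MI F => d * P.1.natDegree)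
    (fun P => pointFactor N h (c ^ P.1.natDegree) (d * P.1.natDegree) P)

theorem fin_d {d : ℕ} (hd : 0 < d) (n : ℕ) : {P : MI F | d * P.1.natDegree ≤ n}.Finite :=
  (finite_deg_le n).subset fun P hP => (Nat.le_mul_of_pos_left _ hd).trans hP

theorem lineE_dvd {N : ℕ} (hN : 0 < N) (h : Polynomial F) (c : ℤ) {d : ℕ} (hd : 0 < d) :
    (X : PowerSeries ℤ) ^ d ∣ lineE N h c d - 1 :=
  euler_one_mod (fin_d hd) (fun P => pointFactor_dvd hN h _ (Nat.mul_pos hd (MI.deg_pos P)) P) d
    fun P => (pow_dvd_pow _ (Nat.le_mul_of_pos_right _ (MI.deg_pos P))).trans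
      (pointFactor_dvd hN h _ (Nat.mul_pos hd (MI.deg_pos P)) P)

theorem eulerProd_pow {ι R : Type*} [CommRing R] {d : ι → ℕ} (hfin : ∀ n, {i | d i ≤ n}.Finite)
    {f : ι → PowerSeries R} (hf : ∀ i, (X : PowerSeries R) ^ d i ∣ f i - 1) (m : ℕ) :
    eulerProd d (fun i => f i ^ m) = eulerProd d f ^ m := by
  have h := eulerProd_prod hfin (Finset.range m) (fun _ => f) (fun _ i => hf i)
  simpa using h

open Classical in
/-- the local factor modulo `l` -/
theorem line_mod (hq : l ∣ Nat.card F - 1) {s n : ℕ} (hn : 0 < n) (b : Fin n → F) {e : Fin n → ℕ}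
    (he : ∀ i, e i ≠ 0) (c : ℤ) {d : ℕ} (hd : 0 < d) :
    redL l (lineE (l ^ s) (splitPoly b e) c d) *
      (1 - PowerSeries.C (c : ZMod l) * PowerSeries.X ^ d) ^ ((l ^ s - 1) * (numPts b - 1)) = 1 := by
  classical
  set h := splitPoly b e with hh
  set a : ZMod l := (c : ZMod l) with ha
  set Z : PowerSeries (ZMod l) := 1 - PowerSeries.C a * PowerSeries.X ^ d with hZ
  set f : MI F → PowerSeries (ZMod l) := fun P => if P.1 ∣ h then 1 else
    (1 - PowerSeries.C (a ^ P.1.natDegree) * PowerSeries.X ^ (d * P.1.natDegree)) with hf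
  have hf1 : ∀ P, (X : PowerSeries (ZMod l)) ^ (d * P.1.natDegree) ∣ f P - 1 := by
    intro P
    rw [hf]
    show _ ∣ (if P.1 ∣ h then 1 else _) - 1
    split_ifs
    · rw [sub_self]; exact dvd_zero _
    · exact dvd_term _ _
  set B := eulerProd (fun P : MI F => d * P.1.natDegree) f with hB
  have h1 : redL l (lineE (l ^ s) h c d) = B ^ (l ^ s - 1) := by
    rw [hB, ← eulerProd_pow (fin_d hd) hf1]
    unfold lineE
    rw [map_eulerProd (fin_d hd)]
    congr 1
    funext P
    rw [point_mod hq h _ (Nat.mul_pos hd (MI.deg_pos P)) P, hf]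
    show _ = (if P.1 ∣ h then 1 else _) ^ (l ^ s - 1)
    split_ifs
    · rw [one_pow]
    · rw [Int.cast_pow]
  have h2 := fin_factor' (fin_d hd) (F := f)
    (W := fun P => (1 - PowerSeries.C (a ^ P.1.natDegree) * PowerSeries.X ^ (d * P.1.natDegree) :
      PowerSeries (ZMod l))) hf1 (fun P => dvd_term _ _) (facs h) (fun P hP => by
        show (if P.1 ∣ h then 1 else _) = _
        rw [if_neg (fun hd => hP ((mem_facs (splitPoly_ne b e) P).2 hd))])
  rw [line_all hq a hd] at h2
  have h3 : ∏ P ∈ facs h, f P = 1 := Finset.prod_eq_one fun P hP => by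
    show (if P.1 ∣ h then 1 else _) = _
    rw [if_pos ((mem_facs (splitPoly_ne b e) P).1 hP)]
  have h4 : ∏ P ∈ facs h, (1 - PowerSeries.C (a ^ P.1.natDegree) *
      PowerSeries.X ^ (d * P.1.natDegree) : PowerSeries (ZMod l)) = Z ^ numPts b := by
    rw [hh, facs_split b he, Finset.prod_image, Finset.prod_congr rfl (fun x _ => by
      rw [Polynomial.natDegree_X_sub_C, pow_one, mul_one]), Finset.prod_const]
    · rfl
    · intro x _ y _ hxy
      have h5 := congrArg (fun P : MI F => P.1) hxy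
      exact Polynomial.C_injective (sub_right_injective h5)
  rw [h3, h4, mul_one] at h2
  have hZ0 : Z ≠ 0 := by
    intro h0
    have h5 := congrArg (constantCoeff (R := ZMod l)) h0
    rw [hZ] at h5
    simp [hd.ne'] at h5
  have hpos := numPts_pos hn b
  obtain ⟨j, hj⟩ : ∃ j, numPts b = j + 1 := ⟨numPts b - 1, by omega⟩
  rw [hj, pow_succ, ← mul_assoc] at h2
  have h5 : B * Z ^ j = 1 := mul_right_cancel₀ hZ0 (by rw [h2, one_mul])
  rw [h1, hj, Nat.add_sub_cancel, mul_comm (l ^ s - 1) j, pow_mul, ← mul_pow, h5, one_pow]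

end line

end Pool.Agent.J6H43.SE
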