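import Pool.Agent.W313.Hyp.Stmt
import Pool.Agent.W309.T3.Eul

/-!
The points of the curves `Y ^ N = h(x)` over a finite field, where `N` is a power of a prime `l`,
modulo `l`.
-/

set_option autoImplicit false
set_option linter.all false
set_option maxHeartbeats 4000000

open PowerSeries

namespace Pool.Agent.J6H43.SE

open Pool.Agent.W343.BSD Pool.Agent.W313.Hyp

section defs

variable {F : Type} [Field F]

/-- The residue field of the closed point `Q` of the affine line over the field `F`. -/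
def PtField (Q : ClosedPt F) : Type := AdjoinRoot Q.1

noncomputable instance ptField (Q : ClosedPt F) : Field (PtField Q) :=
  @AdjoinRoot.instField F _ Q.1 ⟨Q.2.2⟩

/-- The value at the closed point `Q` of the polynomial `h`. -/
noncomputable def value (Q : ClosedPt F) (h : Polynomial F) : PtField Q := AdjoinRoot.mk Q.1 h

/-- The power series `∑ c ^ i T ^ (n i)`, the inverse of `1 - c T ^ n`. -/
noncomputable def geom (c : ℤ) (n : ℕ) : PowerSeries ℤ :=
  PowerSeries.mk fun i => if n ∣ i then c ^ (i / n) else 0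

/-- The factor of the closed point `Q` of the `x`-line for the curve `y ^ N = h(x)`: the product of
`1 - c ^ (deg R) T ^ (n deg R)` over the points `R` of the fibre `y ^ N = h(Q)` over the residue
field of `Q` (monic irreducible factors of `Y ^ N - h(Q)`, of degree `deg R`), divided by
`1 - c T ^ n`. -/
noncomputable def pointFactor (N : ℕ) (h : Polynomial F) (c : ℤ) (n : ℕ) (Q : ClosedPt F) :
    PowerSeries ℤ :=
  (∏ᶠ (R : ClosedPt (PtField Q)) (_ : R.1 ∣ Polynomial.X ^ N - Polynomial.C (value Q h)),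
    (1 - PowerSeries.C (c ^ R.1.natDegree) * PowerSeries.X ^ (n * R.1.natDegree))) * geom c n

end defs

section geo

theorem mul_geom (c : ℤ) {n : ℕ} (hn : 0 < n) :
    (1 - PowerSeries.C c * PowerSeries.X ^ n) * geom c n = 1 := by
  ext i
  rw [sub_mul, one_mul, map_sub, mul_assoc, PowerSeries.coeff_C_mul, coeff_X_pow_mul', geom,
    PowerSeries.coeff_mk, PowerSeries.coeff_mk, PowerSeries.coeff_one]
  by_cases h : n ∣ i
  · obtain ⟨j, rfl⟩ := h
    rw [if_pos (dvd_mul_right _ _), Nat.mul_div_cancel_left _ hn]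
    rcases Nat.eq_zero_or_pos j with rfl | hj
    · rw [mul_zero, if_neg (by omega), if_pos rfl]
      simp
    · have h1 : n ≤ n * j := Nat.le_mul_of_pos_right _ hj
      have h2 : n * j - n = n * (j - 1) := by
        rw [Nat.mul_sub, mul_one]
      rw [if_pos h1, h2, if_pos (dvd_mul_right _ _), Nat.mul_div_cancel_left _ hn,
        if_neg (Nat.mul_pos hn hj).ne', ← pow_succ', Nat.sub_add_cancel hj, sub_self]
  · have h0 : i ≠ 0 := by
      rintro rfl
      exact h (dvd_zero n)
    rw [if_neg h, if_neg h0]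
    split_ifs with h1 h2
    · exfalso
      apply h
      have h3 := (Nat.dvd_add_right (dvd_refl n)).2 h2
      rwa [Nat.add_sub_cancel' h1] at h3
    · simp
    · simp

variable {R : Type*} [CommRing R]

theorem dvd_term (c : R) (n : ℕ) :
    (X : PowerSeries R) ^ n ∣ (1 - PowerSeries.C c * PowerSeries.X ^ n) - 1 := by
  rw [sub_right_comm, sub_self, zero_sub, dvd_neg]
  exact dvd_mul_left _ _

theorem geom_mod (c : ℤ) {n : ℕ} (hn : 0 < n) : (X : PowerSeries ℤ) ^ n ∣ geom c n - 1 := by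
  have h := mul_geom c hn
  refine ⟨PowerSeries.C c * geom c n, ?_⟩
  linear_combination h

end geo

section fin

variable {E : Type} [Field E] [Finite E]

theorem sum_pow_dvd {l : ℕ} {q : ℕ} (hq : l ∣ q - 1) (hq1 : 1 ≤ q) (s : ℕ) :
    l ^ s * (q - 1) ∣ q ^ l ^ s - 1 := by
  induction s with
  | zero => simp
  | succ s ih =>
    have h1 : l ∣ q ^ l ^ s - 1 := hq.trans (Nat.sub_one_dvd_pow_sub_one q _)
    have h2 : 1 ≤ q ^ l ^ s := Nat.one_le_pow _ _ hq1
    have h3 : (q ^ l ^ s) ^ l - 1 = (q ^ l ^ s - 1) * ∑ i ∈ Finset.range l, (q ^ l ^ s) ^ i := by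
      have h4 := geom_sum_mul_of_one_le (x := q ^ l ^ s) h2 l
      rw [← h4, mul_comm]
    have h4 : l ∣ ∑ i ∈ Finset.range l, (q ^ l ^ s) ^ i := by
      have h5 : (∑ i ∈ Finset.range l, (q ^ l ^ s) ^ i) ≡ ∑ i ∈ Finset.range l, 1 [MOD l] := by
        apply Nat.ModEq.sum
        intro i _
        have h6 : q ^ l ^ s ≡ 1 [MOD l] := ((Nat.modEq_iff_dvd' h2).2 h1).symm
        simpa using h6.pow i
      have h7 : ∑ i ∈ Finset.range l, 1 = l := by simp
      rw [h7] at h5
      exact (Nat.modEq_zero_iff_dvd.1 (h5.trans (by simp [Nat.ModEq])))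
    obtain ⟨t, ht⟩ := h4
    obtain ⟨r, hr⟩ := ih
    rw [pow_succ, pow_mul, h3, ht, hr]
    exact ⟨r * t, by ring⟩

theorem deg_dvd {l : ℕ} (hq : l ∣ Nat.card E - 1) {s : ℕ} {c : E} (hc : c ≠ 0) {R : Polynomial E}
    (hR : Irreducible R) (hd : R ∣ Polynomial.X ^ l ^ s - Polynomial.C c) :
    R.natDegree ∣ l ^ s := by
  apply hR.natDegree_dvd_of_dvd_X_pow_card_pow_sub_X
  refine hd.trans ?_
  set q := Nat.card E with hqd
  have hq1 : 1 ≤ q := Nat.card_pos
  obtain ⟨t, ht⟩ := sum_pow_dvd hq hq1 s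
  have h1 : q ^ l ^ s = l ^ s * ((q - 1) * t) + 1 := by
    have : 1 ≤ q ^ l ^ s := Nat.one_le_pow _ _ hq1
    rw [← mul_assoc, ← ht]
    omega
  have h2 : c ^ ((q - 1) * t) = 1 := by
    have h3 : c ^ (q - 1) = 1 := by
      haveI := Fintype.ofFinite E
      rw [hqd, Nat.card_eq_fintype_card]
      exact FiniteField.pow_card_sub_one_eq_one c hc
    rw [pow_mul, h3, one_pow]
  have h4 : (Polynomial.X ^ q ^ l ^ s - Polynomial.X : Polynomial E) =
      ((Polynomial.X ^ l ^ s) ^ ((q - 1) * t) - (Polynomial.C c) ^ ((q - 1) * t)) *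
        Polynomial.X := by
    rw [← Polynomial.C_pow, h2, Polynomial.C_1, sub_mul, one_mul, h1, pow_succ, pow_mul]
  rw [h4]
  exact (sub_dvd_pow_sub_pow _ _ _).mul_right _

/-- the fibre over a point where `h` does not vanish -/
theorem fib_mod {l : ℕ} [hl : Fact l.Prime] (hq : l ∣ Nat.card E - 1) (hlE : ((l : ℕ) : E) ≠ 0)
    {s : ℕ} {c : E} (hc : c ≠ 0) (a : ZMod l) (n : ℕ) :
    ∏ R ∈ facs (Polynomial.X ^ l ^ s - Polynomial.C c : Polynomial E),
      (1 - PowerSeries.C (a ^ R.1.natDegree) * PowerSeries.X ^ (n * R.1.natDegree) :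
        PowerSeries (ZMod l)) = (1 - PowerSeries.C a * PowerSeries.X ^ n) ^ l ^ s := by
  have hN : l ^ s ≠ 0 := pow_ne_zero _ hl.out.ne_zero
  have hne : (Polynomial.X ^ l ^ s - Polynomial.C c : Polynomial E) ≠ 0 :=
    Polynomial.X_pow_sub_C_ne_zero (Nat.pos_of_ne_zero hN) c
  have hm : (Polynomial.X ^ l ^ s - Polynomial.C c : Polynomial E).Monic :=
    Polynomial.monic_X_pow_sub_C c hN
  have hsep : (Polynomial.X ^ l ^ s - Polynomial.C c : Polynomial E).Separable :=
    Polynomial.separable_X_pow_sub_C c (by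
      rw [Nat.cast_pow]
      exact pow_ne_zero _ hlE) hc
  have hsum := sum_facs hm hsep.squarefree
  rw [Polynomial.natDegree_X_pow_sub_C] at hsum
  have hex : ExpChar (PowerSeries (ZMod l)) l := by
    have h1 : CharP (PowerSeries (ZMod l)) l := by
      have h2 : Function.Injective (PowerSeries.C (R := ZMod l)) := PowerSeries.C_injective
      exact charP_of_injective_ringHom h2 l
    exact ExpChar.prime hl.out
  have key : ∀ R ∈ facs (Polynomial.X ^ l ^ s - Polynomial.C c : Polynomial E),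
      (1 - PowerSeries.C (a ^ R.1.natDegree) * PowerSeries.X ^ (n * R.1.natDegree) :
        PowerSeries (ZMod l)) = (1 - PowerSeries.C a * PowerSeries.X ^ n) ^ R.1.natDegree := by
    intro R hR
    have h1 := deg_dvd hq hc R.2.2 ((mem_facs hne R).1 hR)
    obtain ⟨j, -, hj⟩ := (Nat.dvd_prime_pow hl.out).1 h1
    rw [hj, sub_pow_expChar_pow, one_pow, mul_pow, ← pow_mul, ← map_pow]
  rw [Finset.prod_congr rfl key, Finset.prod_pow_eq_pow_sum, hsum]

end fin

end Pool.Agent.J6H43.SE
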