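import Pool.Agent.J6H43.SE.Stmt

/-!
The bound for the order of vanishing of the Jacobians of the curves `y ^ N = ∏ (x - a i) ^ e i`, and
the pencils with one variable branch point.
-/

set_option autoImplicit false
set_option linter.all false
set_option maxHeartbeats 4000000

open PowerSeries FF Module

namespace Pool.Agent.J6H43.SE

open Pool.Agent.W343.BSD Pool.Agent.H123R3.ZT Pool.Agent.W313.Hyp

section one

variable {k K : Type} [Field k] [Finite k] [Field K] [Algebra k K] [FF.IsFF k K]

theorem card_one {l : ℕ} (hq : l ∣ Nat.card k - 1) : ((Nat.card k : ℕ) : ZMod l) = 1 := by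
  obtain ⟨t, ht⟩ := hq
  have h3 : 1 ≤ Nat.card k := Nat.card_pos
  have h4 : Nat.card k = l * t + 1 := by omega
  rw [h4]
  push_cast
  rw [ZMod.natCast_self, zero_mul, zero_add]

theorem zeta_mod {l : ℕ} (hq : l ∣ Nat.card k - 1) {P : Polynomial ℤ}
    (hP : IsZetaNumRel k K P) (hr : constDeg k K = 1) :
    ((P.map (Int.castRingHom (ZMod l)) : Polynomial (ZMod l)) : PowerSeries (ZMod l)) *
      eulerProd (fun v : Place k K => v.deg)
        (fun v => (1 - PowerSeries.C (((1 : ℤ) : ℤ) : ZMod l) * PowerSeries.X ^ v.deg :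
          PowerSeries (ZMod l))) =
      (((1 - Polynomial.C 1 * Polynomial.X ^ 1) ^ 2 : Polynomial (ZMod l)) :
        PowerSeries (ZMod l)) := by
  have hfin := fun n => places_fin (k := k) (K := K) n
  unfold IsZetaNumRel at hP
  rw [hr] at hP
  have h1 := congrArg (redL l) hP
  rw [map_mul, redL_poly, map_eulerProd hfin] at h1
  have e0 : (fun v : Place k K => redL l (1 - PowerSeries.X ^ v.deg)) = fun v =>
      (1 - PowerSeries.C (((1 : ℤ) : ℤ) : ZMod l) * PowerSeries.X ^ v.deg :
          PowerSeries (ZMod l)) := by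
    funext v
    rw [map_sub, map_one, map_pow, PowerSeries.map_X, Int.cast_one, map_one, one_mul]
  rw [e0] at h1
  rw [h1]
  have e2 : (Int.castRingHom (ZMod l)) ((Nat.card k : ℤ) ^ 1) = 1 := by
    rw [pow_one, eq_intCast, Int.cast_natCast, card_one hq]
  rw [map_mul, map_sub, map_sub, map_one, map_mul, map_pow, PowerSeries.map_X, PowerSeries.map_C,
    e2, Polynomial.coe_pow, Polynomial.coe_sub, Polynomial.coe_one, Polynomial.coe_mul,
    Polynomial.coe_pow, Polynomial.coe_X, Polynomial.coe_C, map_one, one_mul, sq]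

theorem num_ne {l : ℕ} [hl : Fact l.Prime] {P : Polynomial ℤ} (hP : IsZetaNumRel k K P) :
    P.map (Int.castRingHom (ZMod l)) ≠ 0 := by
  intro h
  have h1 := congrArg (redL l) hP
  rw [map_mul, redL_poly, h, Polynomial.coe_zero, zero_mul] at h1
  have h2 := congrArg (constantCoeff (R := ZMod l)) h1
  have h3 := (constDeg_pos k K).ne'
  simp [h3] at h2

theorem order_one {l : ℕ} [hl : Fact l.Prime] (hq : l ∣ Nat.card k - 1) {PK : Polynomial ℤ}
    (hP : IsZetaNumRel k K PK) (hr : constDeg k K = 1) {s n : ℕ} (hn : 0 < n)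
    (A T : Finset (FF.Place k K)) (hAT : A ⊆ T) (a : Fin n → K) {e : Fin n → ℕ}
    (he : ∀ i, e i ≠ 0) (u r : FF.Place k K → K)
    (hgood : ∀ v, v ∉ T → Function.Injective (redPts (l ^ s) a u r v)) [∀ v, Decidable (v ∈ A)] :
    OrderEq k l (LOutside (l ^ s) A a e u r (fun _ => 1))
      (((l ^ s - 1 : ℕ) : ℤ) * (((n - 1 : ℕ) : ℤ) * ((mu l PK : ℤ) - 2) +
        ∑ v ∈ T, ((drop (l ^ s) A a u r v * l ^ padicValNat l v.deg : ℕ) : ℤ))) := by
  intro m G H hH hG
  have h1 : (1 - Polynomial.C 1 * Polynomial.X ^ 1 : Polynomial (ZMod l)) ≠ 0 :=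
    Pool.Agent.W309.T3.binom_ne one_pos
  have h := glob_eq hq hn A T hAT a he u r hgood (fun _ => 1)
    (P := (1 - Polynomial.C 1 * Polynomial.X ^ 1) ^ 2) (pow_ne_zero _ h1) (num_ne (l := l) hP)
    (zeta_mod hq hP hr) hH hG
  rw [rm_pow 1 h1, Pool.Agent.W309.T3.rm_binom l one_ne_zero one_pos] at h
  have h2 : ∑ v ∈ T, (if (((1 : ℤ) : ℤ) : ZMod l) = 1 then
      drop (l ^ s) A a u r v * l ^ padicValNat l v.deg else 0) =
      ∑ v ∈ T, drop (l ^ s) A a u r v * l ^ padicValNat l v.deg :=
    Finset.sum_congr rfl fun v _ => by rw [if_pos (by simp)]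
  rw [h2] at h
  simp only [one_pow, mul_one, if_true, padicValNat.one, pow_zero] at h
  have h3 : m + mu l G + (l ^ s - 1) * (n - 1) * 2 = (l ^ s - 1) * (n - 1) * mu l PK +
      (l ^ s - 1) * ∑ v ∈ T, drop (l ^ s) A a u r v * l ^ padicValNat l v.deg + mu l H := h
  zify at h3
  push_cast
  linear_combination h3

end one

section pencil

/-- The branch points `z, c 1, …, c n`. -/
def pencil {k K : Type} [Field k] [Field K] [Algebra k K] {n : ℕ} (z : K) (c : Fin n → k) :
    Fin (n + 1) → K := Fin.cons z fun i => algebraMap k K (c i)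

variable {k K : Type} [Field k] [Finite k] [Field K] [Algebra k K] [FF.IsFF k K]

theorem redPts_one (N : ℕ) {n : ℕ} (a : Fin n → K) (v : FF.Place k K) :
    redPts N a (fun _ => 1) (fun _ => 0) v = fun i => v.red (a i) := by
  funext i
  unfold redPts
  rw [S.red_eq, sub_zero, one_pow, div_one]

theorem red_const (v : FF.Place k K) {x y : k}
    (h : v.red (algebraMap k K x) = v.red (algebraMap k K y)) : x = y := by
  have h1 := v.red_sub (v.reg_const x) (v.reg_const y)
  rw [h, sub_self, ← map_sub] at h1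
  rcases (v.red_eq_zero_iff (v.reg_const _)).1 h1 with h2 | h2
  · rw [_root_.map_eq_zero, sub_eq_zero] at h2
    exact h2
  · by_contra hne
    rw [v.ord_const (sub_ne_zero.2 hne)] at h2
    exact lt_irrefl _ h2

theorem numPts_pencil (N : ℕ) {n : ℕ} (z : K) {c : Fin n → k} (hc : Function.Injective c)
    (v : FF.Place k K) : n ≤ numPts (redPts N (pencil z c) (fun _ => 1) (fun _ => 0) v) := by
  classical
  unfold numPts
  have h1 : (Finset.univ.image (fun i : Fin n => v.red (algebraMap k K (c i)))).card = n := by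
    rw [Finset.card_image_of_injective _ (fun i j hij => hc (red_const v hij))]
    simp
  conv_lhs => rw [← h1]
  apply Finset.card_le_card
  intro x hx
  obtain ⟨i, -, rfl⟩ := Finset.mem_image.1 hx
  rw [redPts_one]
  refine Finset.mem_image.2 ⟨i.succ, Finset.mem_univ _, ?_⟩
  show v.red (pencil z c i.succ) = _
  unfold pencil
  rw [Fin.cons_succ]

theorem inj_pencil (N : ℕ) {n : ℕ} {z : K} {c : Fin n → k} (hc : Function.Injective c)
    {v : FF.Place k K} (hz : v.Reg z) (h : ∀ i, ¬ 0 < v.ord (z - algebraMap k K (c i)))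
    (hne : ∀ x : k, z ≠ algebraMap k K x) :
    Function.Injective (redPts N (pencil z c) (fun _ => 1) (fun _ => 0) v) := by
  rw [redPts_one]
  have h0 : ∀ i, v.red z ≠ v.red (algebraMap k K (c i)) := by
    intro i hi
    have h1 := v.red_sub hz (v.reg_const (c i))
    rw [hi, sub_self] at h1
    have hreg : v.Reg (z - algebraMap k K (c i)) := by
      rw [sub_eq_add_neg]
      exact v.reg_add hz (v.reg_neg (v.reg_const _))
    rcases (v.red_eq_zero_iff hreg).1 h1 with h2 | h2
    · exact hne _ (sub_eq_zero.1 h2)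
    · exact h i h2
  intro i j hij
  have e0 : pencil z c 0 = z := by unfold pencil; rw [Fin.cons_zero]
  have eS : ∀ i : Fin n, pencil z c i.succ = algebraMap k K (c i) := fun i => by
    unfold pencil; rw [Fin.cons_succ]
  have hij' : v.red (pencil z c i) = v.red (pencil z c j) := hij
  rcases Fin.eq_zero_or_eq_succ i with rfl | ⟨i, rfl⟩ <;>
    rcases Fin.eq_zero_or_eq_succ j with rfl | ⟨j, rfl⟩
  · rfl
  · rw [e0, eS] at hij'
    exact absurd hij' (h0 j)
  · rw [e0, eS] at hij'
    exact absurd hij'.symm (h0 i)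
  · rw [eS, eS] at hij'
    rw [hc (red_const v hij')]

theorem part_one {l : ℕ} {d : ℕ} (hd : ¬ l ∣ d) : l ^ padicValNat l d = 1 := by
  rw [padicValNat.eq_zero_of_not_dvd hd, pow_zero]

/-- the number of branch points at a place where `z` is equal to `c i` -/
theorem numPts_pencil_eq (N : ℕ) {n : ℕ} {z : K} {c : Fin n → k} (hc : Function.Injective c)
    (v : FF.Place k K) {i : Fin n} (h : 0 < v.ord (z - algebraMap k K (c i))) :
    numPts (redPts N (pencil z c) (fun _ => 1) (fun _ => 0) v) = n := by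
  classical
  refine le_antisymm ?_ (numPts_pencil N z hc v)
  unfold numPts
  have h1 : v.red z = v.red (algebraMap k K (c i)) := by
    have h2 : v.Reg (z - algebraMap k K (c i)) := Or.inr h.le
    have h3 : v.red (z - algebraMap k K (c i)) = 0 := (v.red_eq_zero_iff h2).2 (Or.inr h)
    have h4 := v.red_add h2 (v.reg_const (c i))
    rw [sub_add_cancel, h3, zero_add] at h4
    exact h4
  have h2 : Finset.univ.image (redPts N (pencil z c) (fun _ => 1) (fun _ => 0) v) ⊆
      Finset.univ.image (fun i : Fin n => v.red (algebraMap k K (c i))) := by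
    intro x hx
    obtain ⟨j, -, rfl⟩ := Finset.mem_image.1 hx
    rw [redPts_one]
    show v.red (pencil z c j) ∈ _
    rcases Fin.eq_zero_or_eq_succ j with rfl | ⟨j, rfl⟩
    · unfold pencil
      rw [Fin.cons_zero, h1]
      exact Finset.mem_image_of_mem _ (Finset.mem_univ _)
    · unfold pencil
      rw [Fin.cons_succ]
      exact Finset.mem_image_of_mem (fun i : Fin n => v.red (algebraMap k K (c i)))
        (Finset.mem_univ j)
  refine (Finset.card_le_card h2).trans (Finset.card_image_le.trans ?_)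
  simp

end pencil

end Pool.Agent.J6H43.SE
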