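import Pool.Agent.J6H43.SE.One
import Pool.Agent.H525R3.FFp.RR

/-!
The pencils with one variable branch point: the general formula.
-/

set_option autoImplicit false
set_option linter.all false
set_option maxHeartbeats 4000000

open PowerSeries FF Module

namespace Pool.Agent.J6H43.SE

open Pool.Agent.W343.BSD Pool.Agent.H123R3.ZT Pool.Agent.W313.Hyp

section defs

variable {k K : Type} [Field k] [Field K] [Algebra k K]

/-- The sum over the poles `v` of `z` of the powers of `l` exactly dividing the degrees of `v`. -/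
noncomputable def poleSum (l : ℕ) (k : Type) {K : Type} [Field k] [Field K] [Algebra k K]
    (z : K) : ℕ :=
  ∑ᶠ (v : FF.Place k K) (_ : ¬ v.Reg z), l ^ padicValNat l (S.deg v)

/-- The sum over the zeros `v` of `z` of the powers of `l` exactly dividing the degrees of `v`. -/
noncomputable def zeroSum (l : ℕ) (k : Type) {K : Type} [Field k] [Field K] [Algebra k K]
    (z : K) : ℕ :=
  ∑ᶠ (v : FF.Place k K) (_ : 0 < v.ord z), l ^ padicValNat l (S.deg v)

end defs

section pen

variable {k K : Type} [Field k] [Finite k] [Field K] [Algebra k K] [FF.IsFF k K]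

theorem cond_sum {ι : Type} {P : ι → Prop} {B : Finset ι} (h : ∀ v, v ∈ B ↔ P v) (f : ι → ℕ) :
    ∑ᶠ (v : ι) (_ : P v), f v = ∑ v ∈ B, f v := by
  have h1 : ∀ v, P v = (v ∈ (B : Set ι)) := fun v => by rw [Finset.mem_coe]; exact (propext (h v)).symm
  simp only [h1]
  exact finsum_mem_coe_finset f B

theorem red_eq_of_zero {z : K} {c : k} {v : FF.Place k K} (h : 0 < v.ord (z - algebraMap k K c)) :
    v.Reg z ∧ v.red z = v.red (algebraMap k K c) := by
  have h2 : v.Reg (z - algebraMap k K c) := Or.inr h.le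
  have h3 : v.red (z - algebraMap k K c) = 0 := (v.red_eq_zero_iff h2).2 (Or.inr h)
  have h4 := v.red_add h2 (v.reg_const c)
  rw [sub_add_cancel, h3, zero_add] at h4
  have h5 := v.reg_add h2 (v.reg_const c)
  rw [sub_add_cancel] at h5
  exact ⟨h5, h4⟩

theorem pencil_order' {l : ℕ} [hl : Fact l.Prime] (hq : l ∣ Nat.card k - 1) {PK : Polynomial ℤ}
    (hP : IsZetaNumRel k K PK) (hr : constDeg k K = 1) {s n : ℕ}
    {z : K} (hz : ∀ x : k, z ≠ algebraMap k K x) {c : Fin n → k} (hc : Function.Injective c)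
    {e : Fin (n + 1) → ℕ} (he : ∀ i, e i ≠ 0)
    {A : Finset (FF.Place k K)} (hA : ∀ v, v ∈ A ↔ ¬ v.Reg z) :
    OrderEq k l (LOutside (l ^ s) A (pencil z c) e (fun _ => 1) (fun _ => 0) (fun _ => 1))
      (((l ^ s - 1 : ℕ) : ℤ) * (n * mu l PK + n * ((poleSum l k z : ℤ) - 1) +
        ∑ i, ((zeroSum l k (z - algebraMap k K (c i)) : ℤ) - 1))) := by
  classical
  have hfin : ∀ i, {v : Place k K | 0 < v.ord (z - algebraMap k K (c i))}.Finite := fun i =>
    (Pool.Agent.H525R3.FFp.finite_support (k := k) (z - algebraMap k K (c i))).subset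
      fun v hv => (ne_of_gt hv : v.ord _ ≠ 0)
  set Z : Fin n → Finset (Place k K) := fun i => (hfin i).toFinset with hZ
  have hZm : ∀ i v, v ∈ Z i ↔ 0 < v.ord (z - algebraMap k K (c i)) := by
    intro i v
    rw [hZ]
    exact Set.Finite.mem_toFinset _
  set U : Finset (Place k K) := Finset.univ.biUnion Z with hU
  have hdisj : Disjoint A U := by
    rw [Finset.disjoint_left]
    intro v hv hv'
    rw [hU, Finset.mem_biUnion] at hv'
    obtain ⟨i, -, hi⟩ := hv'
    exact (hA v).1 hv (red_eq_of_zero ((hZm i v).1 hi)).1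
  set T : Finset (Place k K) := A ∪ U with hT
  have hgood : ∀ v, v ∉ T →
      Function.Injective (redPts (l ^ s) (pencil z c) (fun _ => 1) (fun _ => 0) v) := by
    intro v hv
    rw [hT, Finset.mem_union, not_or] at hv
    have h1 : v.Reg z := by
      by_contra h
      exact hv.1 ((hA v).2 h)
    refine inj_pencil _ hc h1 (fun i hi => hv.2 ?_) hz
    rw [hU, Finset.mem_biUnion]
    exact ⟨i, Finset.mem_univ _, (hZm i v).2 hi⟩
  have h := order_one hq hP hr (s := s) (Nat.succ_pos n) A T Finset.subset_union_left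
    (pencil z c) he _ _ hgood
  have hpw : ((Finset.univ : Finset (Fin n)) : Set (Fin n)).PairwiseDisjoint Z := by
    intro i _ j _ hij
    rw [Function.onFun, Finset.disjoint_left]
    intro v hv hv'
    have h1 := (red_eq_of_zero ((hZm i v).1 hv)).2
    have h2 := (red_eq_of_zero ((hZm j v).1 hv')).2
    exact hij (hc (red_const v (h1.symm.trans h2)))
  have hpole : (poleSum l k z : ℤ) = ∑ v ∈ A, ((l ^ padicValNat l v.deg : ℕ) : ℤ) := by
    unfold poleSum
    rw [cond_sum hA, Nat.cast_sum]
    exact Finset.sum_congr rfl fun v _ => by rw [S.deg_eq]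
  have hzero : ∀ i, (zeroSum l k (z - algebraMap k K (c i)) : ℤ) =
      ∑ v ∈ Z i, ((l ^ padicValNat l v.deg : ℕ) : ℤ) := by
    intro i
    unfold zeroSum
    rw [cond_sum (hZm i), Nat.cast_sum]
    exact Finset.sum_congr rfl fun v _ => by rw [S.deg_eq]
  have hsum : ∑ v ∈ T, ((drop (l ^ s) A (pencil z c) (fun _ => 1) (fun _ => 0) v *
      l ^ padicValNat l v.deg : ℕ) : ℤ) = n * poleSum l k z +
        ∑ i, (zeroSum l k (z - algebraMap k K (c i)) : ℤ) := by
    rw [hT, Finset.sum_union hdisj, hpole, Finset.mul_sum, hU, Finset.sum_biUnion hpw]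
    congr 1
    · refine Finset.sum_congr rfl fun v hv => ?_
      unfold drop
      rw [if_pos hv]
      push_cast
      simp
    · refine Finset.sum_congr rfl fun i _ => ?_
      rw [hzero i]
      refine Finset.sum_congr rfl fun v hv => ?_
      have h1 := (hZm i v).1 hv
      unfold drop
      rw [if_neg (by rw [hA]; exact not_not.2 (red_eq_of_zero h1).1),
        numPts_pencil_eq (l ^ s) hc v h1]
      simp
  have e2 : ((n.succ - 1 : ℕ) : ℤ) = n := by simp
  rw [hsum, e2] at h
  have e1 : ((l ^ s - 1 : ℕ) : ℤ) * ((n : ℤ) * ((mu l PK : ℤ) - 2) + (n * poleSum l k z +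
        ∑ i, (zeroSum l k (z - algebraMap k K (c i)) : ℤ))) =
      ((l ^ s - 1 : ℕ) : ℤ) * (n * mu l PK + n * ((poleSum l k z : ℤ) - 1) +
        ∑ i, ((zeroSum l k (z - algebraMap k K (c i)) : ℤ) - 1)) := by
    rw [Finset.sum_sub_distrib, Finset.sum_const, Finset.card_univ, Fintype.card_fin,
      nsmul_eq_mul, mul_one]
    ring
  rw [e1] at h
  exact h

end pen

end Pool.Agent.J6H43.SE
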