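import Pool.Agent.J6H43.SE.Pen
import Pool.Agent.N874.DH.C7

/-!
Pencils over quadratic extensions.
-/

set_option autoImplicit false
set_option linter.all false
set_option maxHeartbeats 4000000

open FF Module Polynomial

namespace Pool.Agent.J6H43.SE

open Pool.Agent.W343.BSD Pool.Agent.W309.RF Pool.Agent.H525R3.FFp Pool.Agent.TH639.B3
open Pool.Agent.N874.DH

section quad

variable {k K M : Type} [Field k] [Finite k] [Field K] [Algebra k K] [FF.IsFF k K] [Field M]
  [Algebra k M] [Algebra K M] [IsScalarTower k K M] [FF.IsFF k M]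

theorem val_two {l : ℕ} (hl : l.Prime) (hodd : l ≠ 2) {d : ℕ} (hd : 0 < d) :
    padicValNat l (d * 2) = padicValNat l d := by
  haveI : Fact l.Prime := ⟨hl⟩
  rw [padicValNat.mul hd.ne' (by norm_num), padicValNat.eq_zero_of_not_dvd (n := 2), add_zero]
  intro h
  exact hodd ((Nat.prime_dvd_prime_iff_eq hl Nat.prime_two).1 h)

open Classical in
theorem fiber_sum (h6 : (6 : k) ≠ 0) [FiniteDimensional K M] [IsGalois K M]
    (hn : finrank K M = 2) {u : K} (hu : u ≠ 0) {θ : M} (hθ : θ ^ 2 = algebraMap K M u)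
    (hns : ∀ s : K, u ≠ s ^ 2) {l : ℕ} (hl : l.Prime) (hodd : l ≠ 2) (v : Place k K) :
    ∃ S : Finset (Place k M), (∀ w, w ∈ S ↔ ∃ e, Over w v e) ∧
      ∑ w ∈ S, l ^ padicValNat l w.deg =
        (if LocSq v u then 2 else 1) * l ^ padicValNat l v.deg := by
  obtain ⟨S, e, f, D⟩ := exists_galoisFiber (L := M) v
  have hpos : 0 < v.deg := deg_pos v
  refine ⟨S, fun w => ⟨fun h => ⟨e, D.isOver w h⟩, fun ⟨e', h⟩ => D.mem w e' h⟩, ?_⟩
  have h1 : ∑ w ∈ S, l ^ padicValNat l w.deg = S.card * l ^ padicValNat l (v.deg * f) := by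
    rw [← smul_eq_mul, ← Finset.sum_const]
    exact Finset.sum_congr rfl fun w hw => by rw [D.deg w hw]
  rw [h1]
  by_cases hs : LocSq v u
  · obtain ⟨a, b⟩ := fib_split h6 D hn hu hθ hns hs
    rw [a, b, mul_one, if_pos hs]
  · rw [if_neg hs, one_mul]
    by_cases ho : Odd (v.ord u)
    · obtain ⟨a, b⟩ := fib_odd D hn hu hθ ho
      rw [a, b, mul_one, one_mul]
    · obtain ⟨a, b⟩ := fib_inert D hn hu hθ hns ho hs
      rw [a, b, one_mul, val_two hl hodd hpos]

open Classical in
theorem zeroSum_quad (h6 : (6 : k) ≠ 0) [FiniteDimensional K M] [IsGalois K M]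
    (hn : finrank K M = 2) {u : K} (hu : u ≠ 0) {θ : M} (hθ : θ ^ 2 = algebraMap K M u)
    (hns : ∀ s : K, u ≠ s ^ 2) {l : ℕ} (hl : l.Prime) (hodd : l ≠ 2) {z : K} {v0 : Place k K}
    (h : ∀ v : Place k K, 0 < v.ord z ↔ v = v0) (hd : ¬ l ∣ v0.deg) :
    zeroSum l k (algebraMap K M z) = if LocSq v0 u then 2 else 1 := by
  obtain ⟨S, hS, hsum⟩ := fiber_sum (M := M) h6 hn hu hθ hns hl hodd v0
  have hB : ∀ w : Place k M, w ∈ S ↔ 0 < w.ord (algebraMap K M z) := by
    intro w
    rw [hS]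
    constructor
    · rintro ⟨e, he⟩
      rw [he.2]
      have he' : (0 : ℤ) < e := by exact_mod_cast he.1
      exact mul_pos he' ((h v0).2 rfl)
    · intro hw
      obtain ⟨e', v', hv'⟩ := exists_below (K := K) w
      rw [hv'.2] at hw
      have he' : (0 : ℤ) < e' := by exact_mod_cast hv'.1
      have h1 : 0 < v'.ord z := by
        by_contra h2
        push Not at h2
        have := mul_nonpos_of_nonneg_of_nonpos he'.le h2
        omega
      rw [(h v').1 h1] at hv'
      exact ⟨e', hv'⟩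
  unfold zeroSum
  rw [cond_sum hB]
  have e2 : l ^ padicValNat l v0.deg = 1 := part_one hd
  rw [e2, mul_one] at hsum
  rw [← hsum]
  exact Finset.sum_congr rfl fun w _ => by rw [Pool.Agent.W343.BSD.S.deg_eq]

open Classical in
theorem poleSum_quad (h6 : (6 : k) ≠ 0) [FiniteDimensional K M] [IsGalois K M]
    (hn : finrank K M = 2) {u : K} (hu : u ≠ 0) {θ : M} (hθ : θ ^ 2 = algebraMap K M u)
    (hns : ∀ s : K, u ≠ s ^ 2) {l : ℕ} (hl : l.Prime) (hodd : l ≠ 2) {z : K} {v0 : Place k K}
    (h : ∀ v : Place k K, ¬ v.Reg z ↔ v = v0) (hd : ¬ l ∣ v0.deg) :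
    poleSum l k (algebraMap K M z) = if LocSq v0 u then 2 else 1 := by
  obtain ⟨S, hS, hsum⟩ := fiber_sum (M := M) h6 hn hu hθ hns hl hodd v0
  have hB : ∀ w : Place k M, w ∈ S ↔ ¬ w.Reg (algebraMap K M z) := by
    intro w
    rw [hS]
    constructor
    · rintro ⟨e, he⟩ hr
      exact (h v0).2 rfl (he.reg.1 hr)
    · intro hw
      obtain ⟨e', v', hv'⟩ := exists_below (K := K) w
      have h1 : ¬ v'.Reg z := fun h2 => hw (hv'.reg.2 h2)
      rw [(h v').1 h1] at hv'
      exact ⟨e', hv'⟩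
  unfold poleSum
  rw [cond_sum hB]
  have e2 : l ^ padicValNat l v0.deg = 1 := part_one hd
  rw [e2, mul_one] at hsum
  rw [← hsum]
  exact Finset.sum_congr rfl fun w _ => by rw [Pool.Agent.W343.BSD.S.deg_eq]

end quad

section poly

variable {k : Type} [Field k]

/-- The polynomial `h` has positive degree, the `c i` are different from each other, and `h - c i` is
a constant times a power of the monic irreducible polynomial `P i`, of degree prime to `l`. -/
structure IsPolyPencil (l : ℕ) {n : ℕ} (h : k[X]) (c : Fin n → k) (P : Fin n → k[X]) : Prop where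
  pos : 0 < h.natDegree
  injective : Function.Injective c
  monic : ∀ i, (P i).Monic
  irreducible : ∀ i, Irreducible (P i)
  degree : ∀ i, ¬ l ∣ (P i).natDegree
  power : ∀ i, ∃ (b : k) (j : ℕ), 0 < j ∧ h - C (c i) = C b * P i ^ j

variable [Finite k]

theorem A_map_sub (h : k[X]) (c : k) : A (h - C c) = A h - algebraMap k (RatFunc k) c := by
  rw [← A_C]
  show algebraMap k[X] (RatFunc k) _ = _
  rw [map_sub]

theorem poly_pole {l : ℕ} {n : ℕ} {h : k[X]} {c : Fin n → k}
    {P : Fin n → k[X]} (hh : IsPolyPencil l h c P) (v : Place k (RatFunc k)) :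
    ¬ v.Reg (A h) ↔ v = infty k := by
  have hh0 : h ≠ 0 := by
    rintro rfl
    simpa using hh.pos
  constructor
  · intro hv
    by_contra hne
    exact hv (fin_reg (fin_of_ne hne) h)
  · rintro rfl hr
    have h1 := ((infty k).reg_iff (A_ne hh0)).1 hr
    rw [inf_ord' infty_X hh0] at h1
    have := hh.pos
    omega

theorem poly_ne {l : ℕ} {n : ℕ} {h : k[X]} {c : Fin n → k}
    {P : Fin n → k[X]} (hh : IsPolyPencil l h c P) (x : k) : A h ≠ algebraMap k (RatFunc k) x := by
  intro h1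
  have h2 := (poly_pole hh (infty k)).2 rfl
  rw [h1] at h2
  exact h2 ((infty k).reg_const x)

theorem poly_zero {l : ℕ} {n : ℕ} {h : k[X]} {c : Fin n → k}
    {P : Fin n → k[X]} (hh : IsPolyPencil l h c P) (i : Fin n) :
    ∃ v0 : Place k (RatFunc k), (∀ v : Place k (RatFunc k),
      0 < v.ord (A h - algebraMap k (RatFunc k) (c i)) ↔ v = v0) ∧ ¬ l ∣ v0.deg ∧
      ∀ D : k[X], Squarefree D →
        (LocSq v0 (A D) ↔ ¬ P i ∣ D ∧ ∃ g : k[X], P i ∣ g ^ 2 - D) := by
  have hPd : 0 < (P i).natDegree := (hh.irreducible i).natDegree_pos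
  obtain ⟨v, hv1, hv2⟩ := exists_fin hPd
  obtain ⟨b, j, hj, hb⟩ := hh.power i
  have hb0 : b ≠ 0 := by
    rintro rfl
    rw [C_0, zero_mul] at hb
    have h1 : h = C (c i) := sub_eq_zero.1 hb
    have := hh.pos
    rw [h1, natDegree_C] at this
    omega
  have hord : ∀ v' : Place k (RatFunc k), v'.ord (A h - algebraMap k (RatFunc k) (c i)) =
      j * v'.ord (A (P i)) := by
    intro v'
    rw [← A_map_sub, hb]
    have e1 : A (C b * P i ^ j) = algebraMap k (RatFunc k) b * A (P i) ^ j := by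
      rw [← A_C]
      show algebraMap k[X] (RatFunc k) _ = _
      rw [map_mul, map_pow]
    have hPne := A_ne (hh.irreducible i).ne_zero
    rw [e1, v'.ord_mul ((_root_.map_ne_zero _).2 hb0) (pow_ne_zero _ hPne), v'.ord_const hb0,
      v'.ord_pow, zero_add]
  have hj' : (0 : ℤ) < j := by exact_mod_cast hj
  refine ⟨v, fun v' => ⟨fun h1 => ?_, ?_⟩, ?_, ?_⟩
  · rw [hord] at h1
    have h2 : 0 < v'.ord (A (P i)) := by
      by_contra h3
      push Not at h3
      have := mul_nonpos_of_nonneg_of_nonpos hj'.le h3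
      omega
    have h3 : 0 ≤ v'.ord RatFunc.X := by
      by_contra h4
      push Not at h4
      rw [inf_ord' h4 (hh.irreducible i).ne_zero] at h2
      omega
    exact fin_unique h3 hv1 (hh.irreducible i) h2 hv2
  · rintro rfl
    rw [hord]
    exact mul_pos hj' hv2
  · obtain ⟨π, hm, hirr, -, -, hdvd, hdeg⟩ := fin_exists hv1
    have h1 := (hdvd _ (hh.irreducible i).ne_zero).1 hv2
    have h2 : π = P i := eq_of_monic_of_associated hm (hh.monic i)
      (hirr.associated_of_dvd (hh.irreducible i) h1)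
    rw [hdeg, h2]
    exact hh.degree i
  · obtain ⟨π, hm, hirr, hdvd, -, hsq⟩ := place_data hv1
    have h1 := (hdvd _ (hh.irreducible i).ne_zero).1 hv2
    have h2 : π = P i := eq_of_monic_of_associated hm (hh.monic i)
      (hirr.associated_of_dvd (hh.irreducible i) h1)
    rw [h2] at hsq
    exact hsq

/-- The prime `P` splits in `k(t)(√D)`, for squarefree `D`. -/
def SplitsIn (P D : k[X]) : Prop := ¬ P ∣ D ∧ ∃ g : k[X], P ∣ g ^ 2 - D

open Classical in
/-- polynomial pencils over a quadratic extension -/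
theorem poly_pencil_order (h6 : (6 : k) ≠ 0) {l : ℕ} [hl : Fact l.Prime] (hodd : l ≠ 2)
    (hq : l ∣ Nat.card k - 1) {D : k[X]} (hs : Squarefree D) (ho : Odd D.natDegree)
    {M : Type} [Field M] [Algebra k M] [Algebra (RatFunc k) M] [IsScalarTower k (RatFunc k) M]
    [FF.IsFF k M] {θ : M} (hθ : θ ^ 2 = algebraMap (RatFunc k) M (A D))
    (htop : IntermediateField.adjoin (RatFunc k) {θ} = ⊤) (hcM : constDeg k M = 1)
    {PM : Polynomial ℤ} (hP : IsZetaNumRel k M PM) {s n : ℕ}
    {h : k[X]} {c : Fin n → k} {P : Fin n → k[X]} (hh : IsPolyPencil l h c P)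
    {e : Fin (n + 1) → ℕ} (he : ∀ i, e i ≠ 0) {B : Finset (FF.Place k M)}
    (hB : ∀ v, v ∈ B ↔ ¬ v.Reg (algebraMap (RatFunc k) M (A h))) :
    OrderEq k l (LOutside (l ^ s) B (pencil (algebraMap (RatFunc k) M (A h)) c) e
      (fun _ => 1) (fun _ => 0) (fun _ => 1))
      (((l ^ s - 1 : ℕ) : ℤ) * (n * mu l PM +
        (Finset.univ.filter fun i => SplitsIn (P i) D).card)) := by
  have h2 : (2 : k) ≠ 0 := by
    intro h; apply h6
    have : (6 : k) = 2 * 3 := by norm_num
    rw [this, h, zero_mul]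
  have h2K : (2 : RatFunc k) ≠ 0 := by
    have : (2 : RatFunc k) = algebraMap k (RatFunc k) 2 := by rw [map_ofNat]
    rw [this]
    exact (_root_.map_ne_zero _).2 h2
  have hns : ∀ s : RatFunc k, A D ≠ s ^ 2 := not_sq k ho
  obtain ⟨hfd, hgal, hn⟩ := quad_data h2K hθ hns htop
  have hu : A D ≠ 0 := A_ne hs.ne_zero
  have hne : ∀ x : k, algebraMap (RatFunc k) M (A h) ≠ algebraMap k M x := by
    intro x hx
    rw [IsScalarTower.algebraMap_apply k (RatFunc k) M] at hx
    exact poly_ne hh x ((algebraMap (RatFunc k) M).injective hx)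
  have hmain := pencil_order' hq hP hcM (s := s) hne hh.injective he hB
  have hpole : poleSum l k (algebraMap (RatFunc k) M (A h)) = 1 := by
    rw [poleSum_quad h6 hn hu hθ hns hl.out hodd (poly_pole hh) (by
      rw [inf_deg infty_X]
      exact fun h1 => hl.out.one_lt.ne' (Nat.dvd_one.1 h1))]
    rw [if_neg]
    intro h1
    apply even_of_locSq hu h1
    rw [inf_ord' infty_X hs.ne_zero]
    exact ((Int.odd_coe_nat _).2 ho).neg
  have hzero : ∀ i, zeroSum l k (algebraMap (RatFunc k) M (A h) - algebraMap k M (c i)) =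
      if SplitsIn (P i) D then 2 else 1 := by
    intro i
    obtain ⟨v0, hv0, hd, hsp⟩ := poly_zero hh i
    have e1 : algebraMap (RatFunc k) M (A h) - algebraMap k M (c i) =
        algebraMap (RatFunc k) M (A h - algebraMap k (RatFunc k) (c i)) := by
      rw [map_sub, ← IsScalarTower.algebraMap_apply k (RatFunc k) M]
    rw [e1, zeroSum_quad h6 hn hu hθ hns hl.out hodd hv0 hd]
    have e2 : LocSq v0 (A D) ↔ SplitsIn (P i) D := hsp D hs
    by_cases hc : SplitsIn (P i) D
    · rw [if_pos hc, if_pos (e2.2 hc)]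
    · rw [if_neg hc, if_neg (fun h => hc (e2.1 h))]
  have e3 : ∑ i, ((zeroSum l k (algebraMap (RatFunc k) M (A h) - algebraMap k M (c i)) : ℤ) - 1) =
      (Finset.univ.filter fun i => SplitsIn (P i) D).card := by
    rw [Finset.card_filter]
    push_cast
    refine Finset.sum_congr rfl fun i _ => ?_
    rw [hzero i]
    split_ifs <;> simp
  rw [hpole, e3] at hmain
  simp only [Nat.cast_one, sub_self, mul_zero, add_zero] at hmain
  exact hmain

end poly

end Pool.Agent.J6H43.SE
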