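import Pool.Agent.J6H43.SE.Glob

/-!
The notions used in the statements on superelliptic curves over function fields.
-/

set_option autoImplicit false
set_option linter.all false
set_option maxHeartbeats 4000000

open Polynomial

namespace Pool.Agent.J6H43.SE

open Pool.Agent.W343.BSD

section defs

variable {k K : Type} [Field k] [Field K] [Algebra k K]

/-- The multiplicity of the root `1` of an integral polynomial modulo `l`. -/
noncomputable def mu (l : ℕ) (P : ℤ[X]) : ℕ :=
  (P.map (Int.castRingHom (ZMod l))).rootMultiplicity 1

/-- The exponents are prime to `l`, and so is their sum. -/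
def IsExponents (l : ℕ) {n : ℕ} (e : Fin n → ℕ) : Prop := (∀ i, ¬ l ∣ e i) ∧ ¬ l ∣ ∑ i, e i

/-- At every place `v` outside `A` the elements `(a i - r v) / u v ^ N` are regular, and outside the
larger finite set `T` their reductions are different from each other: there the model of
`y ^ N = ∏ (x - a i) ^ e i` obtained by the substitution of `u ^ N x + r` for `x` has good
reduction. -/
structure IsModel (N : ℕ) {n : ℕ} (a : Fin n → K) (A T : Finset (FF.Place k K))
    (u r : FF.Place k K → K) : Prop where
  subset : A ⊆ T
  ne_zero : ∀ v ∉ A, u v ≠ 0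
  regular : ∀ v ∉ A, ∀ i, v.Reg ((a i - r v) / u v ^ N)
  good : ∀ v ∉ T, Function.Injective (redPts N a u r v)

/-- The power series `L` is `(1 - q T) ^ m * G / H` with integral polynomials `G` and `H`, where `q`
is the number of elements of `k`. -/
def HasOrder (k : Type) (L : PowerSeries ℤ) (m : ℕ) (G H : ℤ[X]) : Prop :=
  L * (H : PowerSeries ℤ) =
    (((1 - Polynomial.C (Nat.card k : ℤ) * Polynomial.X) ^ m * G : ℤ[X]) : PowerSeries ℤ)

/-- If the power series `L` is a rational function which is defined modulo `l`, then the order of
vanishing of `L` modulo `l` at the point `1` (which is `1 / q` modulo `l`, if `l` divides `q - 1`) is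
equal to `b`. In particular, if `L = (1 - q T) ^ m * G` with an integral polynomial `G` then
`m ≤ b`, and if moreover `b = 0` then `m = 0` and `l` does not divide `G(1)`. -/
def OrderEq (k : Type) (l : ℕ) (L : PowerSeries ℤ) (b : ℤ) : Prop :=
  ∀ (m : ℕ) (G H : ℤ[X]), H.map (Int.castRingHom (ZMod l)) ≠ 0 → HasOrder k L m G H →
    (m : ℤ) + mu l G = b + mu l H

/-- The same with an upper bound for the order of vanishing modulo `l`. -/
def OrderLE (k : Type) (l : ℕ) (L : PowerSeries ℤ) (b : ℤ) : Prop :=
  ∀ (m : ℕ) (G H : ℤ[X]), H.map (Int.castRingHom (ZMod l)) ≠ 0 → HasOrder k L m G H →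
    (m : ℤ) + mu l G ≤ b + mu l H

/-- `P` is the numerator of the zeta function of `F` and its value at `1` is the class number. -/
def IsNumerator (k F : Type) [Field k] [Field F] [Algebra k F] (P : ℤ[X]) : Prop :=
  S.IsZetaNum k F P ∧ P.eval 1 = S.classNumber k F

end defs

end Pool.Agent.J6H43.SE
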