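import Pool.Agent.J6H43.SE.Stmt
import Pool.Agent.R427.TW17

/-!
The bound for the order of vanishing of the quadratic twists of the Jacobians of the curves
`y ^ N = ∏ (x - a i) ^ e i`.
-/

set_option autoImplicit false
set_option linter.all false
set_option maxHeartbeats 4000000

open FF Module

namespace Pool.Agent.J6H43.SE

open Pool.Agent.W343.BSD Pool.Agent.H123R3.ZT Pool.Agent.W313.Hyp Pool.Agent.TH639.B3
open Pool.Agent.R427

variable {k K : Type} [Field k] [Finite k] [Field K] [Algebra k K] [FF.IsFF k K]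

theorem chi_mod_one {l : ℕ} [hl : Fact l.Prime] (hodd : l ≠ 2) (v : Place k K) (u : K) :
    ((chi v u : ℤ) : ZMod l) = 1 ↔ LocSq v u := by
  rw [← TW.chi_one_iff]
  constructor
  · intro h
    rcases TW.chi_vals v u with h1 | h1 | h1
    · rw [h1, Int.cast_zero] at h
      exact absurd h.symm one_ne_zero
    · exact h1
    · rw [h1, Int.cast_neg, Int.cast_one] at h
      exfalso
      have h2 : (2 : ZMod l) = 0 := by
        have h3 : (1 : ZMod l) + 1 = 0 := by
          nth_rewrite 1 [← h]
          ring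
        rw [← h3]
        norm_num
      have h4 : ((2 : ℕ) : ZMod l) = 0 := by exact_mod_cast h2
      rw [ZMod.natCast_eq_zero_iff] at h4
      exact hodd ((Nat.prime_dvd_prime_iff_eq hl.out Nat.prime_two).1 h4)
  · intro h
    rw [h, Int.cast_one]

open Classical in
theorem twist_bound {l : ℕ} [hl : Fact l.Prime] (hodd : l ≠ 2) (hq : l ∣ Nat.card k - 1)
    {x : K} (hN : TW.NRel l k x) {s n : ℕ} (hn : 0 < n)
    (A T : Finset (FF.Place k K)) (hAT : A ⊆ T) (a : Fin n → K) {e : Fin n → ℕ}
    (he : ∀ i, e i ≠ 0) (u r : FF.Place k K → K)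
    (hgood : ∀ v, v ∉ T → Function.Injective (redPts (l ^ s) a u r v))
    [∀ v, Decidable (v ∈ A)] :
    OrderLE k l (LOutside (l ^ s) A a e u r (fun v => chi v x))
      (((l ^ s - 1 : ℕ) : ℤ) * ∑ v ∈ T, (if LocSq v x then
        ((drop (l ^ s) A a u r v * l ^ padicValNat l v.deg : ℕ) : ℤ) else 0)) := by
  intro m G H hH hG
  obtain ⟨P, Q, hP, hQ1, hrel⟩ := hN
  have hQ : Q ≠ 0 := by
    rintro rfl
    simp at hQ1
  have hrel' : (Q : PowerSeries (ZMod l)) * eulerProd (fun v : Place k K => v.deg)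
        (fun v => (1 - PowerSeries.C ((chi v x : ℤ) : ZMod l) * PowerSeries.X ^ v.deg :
          PowerSeries (ZMod l))) = (P : PowerSeries (ZMod l)) := by
    rw [← hrel]
    congr 2
    funext v
    unfold TW.chF
    rw [Polynomial.coe_sub, Polynomial.coe_one, Polynomial.coe_mul, Polynomial.coe_C,
      Polynomial.coe_pow, Polynomial.coe_X]
  have h := glob_eq hq hn A T hAT a he u r hgood (fun v => chi v x) hP hQ hrel' hH hG
  have hQ0 : Q.rootMultiplicity 1 = 0 := Polynomial.rootMultiplicity_eq_zero hQ1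
  rw [hQ0, mul_zero, zero_add] at h
  have h2 : ∑ v ∈ T, (if ((chi v x : ℤ) : ZMod l) = 1 then
      drop (l ^ s) A a u r v * l ^ padicValNat l v.deg else 0) =
      ∑ v ∈ T, (if LocSq v x then drop (l ^ s) A a u r v * l ^ padicValNat l v.deg else 0) := by
    refine Finset.sum_congr rfl fun v _ => ?_
    by_cases hv : LocSq v x
    · rw [if_pos hv, if_pos ((chi_mod_one hodd v x).2 hv)]
    · rw [if_neg hv, if_neg (fun h => hv ((chi_mod_one hodd v x).1 h))]
  rw [h2] at h
  have h3 : m + mu l G ≤ (l ^ s - 1) * ∑ v ∈ T, (if LocSq v x then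
      drop (l ^ s) A a u r v * l ^ padicValNat l v.deg else 0) + mu l H := by
    unfold mu
    omega
  zify at h3
  refine h3.trans (le_of_eq ?_)
  congr 2

end Pool.Agent.J6H43.SE
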